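import Mathlib

/-!
# The forcing relation, and statements about the real line of the extension

A sentence of the forcing language of a preordered set `P` of conditions is represented by the
set of the conditions which force it. Negation, conjunction and universal quantification are the
primitive connectives, with their usual forcing clauses; the other connectives are defined from
them classically. A name for a subset of a ground model set `X` is a map sending `x : X` to the
set of the conditions attached to `x`. Named relations between `ℕ` and `ℕ` which are functions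
stand for the reals of the extension (elements of the Baire space).
-/

namespace Pool.Agent.Helper803.OD.Forcing

open Cardinal

universe u v w

section

variable {P : Type u} [Preorder P]

/-- `p` forces `not φ` iff no `q ≤ p` forces `φ`. -/
def fnot (φ : Set P) : Set P := {p | ∀ q ≤ p, q ∉ φ}

/-- `p` forces `φ and ψ` iff it forces both. -/
def fand (φ ψ : Set P) : Set P := {p | p ∈ φ ∧ p ∈ ψ}

/-- `p` forces `for all i, φ i` iff it forces every `φ i`. -/
def fall {ι : Sort v} (φ : ι → Set P) : Set P := {p | ∀ i, p ∈ φ i}

/-- `φ implies ψ` is `not (φ and not ψ)`. -/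
def fimp (φ ψ : Set P) : Set P := fnot (fand φ (fnot ψ))

/-- `there is i with φ i` is `not for all i, not φ i`. -/
def fex {ι : Sort v} (φ : ι → Set P) : Set P := fnot (fall fun i => fnot (φ i))

/-- An absolute statement about ground model objects. -/
def fground (h : Prop) : Set P := {_p | h}

/-- `p` forces that the generic filter meets the set `N` of conditions:
the set of `r` lying below some member of `N` is dense below `p`. -/
def meets (N : Set P) : Set P := {p | ∀ q ≤ p, ∃ r ≤ q, ∃ s ∈ N, r ≤ s}

/-- The relation named by `R` is a function from `X` to `Y`. -/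
def IsFun {X : Type v} {Y : Type w} (R : X → Y → Set P) : Set P :=
  fand (fall fun x => fex fun y => meets (R x y))
    (fall fun x => fall fun y => fall fun y' =>
      fimp (fand (meets (R x y)) (meets (R x y'))) (fground (y = y')))

/-- The relation named by `R` is injective. -/
def IsInj {X : Type v} {Y : Type w} (R : X → Y → Set P) : Set P :=
  fall fun x => fall fun x' => fall fun y =>
    fimp (fand (meets (R x y)) (meets (R x' y))) (fground (x = x'))

/-- The relation named by `R` is onto `Y`. -/
def IsOnto {X : Type v} {Y : Type w} (R : X → Y → Set P) : Set P :=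
  fall fun y => fex fun x => meets (R x y)

/-- Some injective function from `X` to `X` only takes values `y` with `φ y`:
the set of all `y` with `φ y` has the same cardinality as `X`. -/
def FullSize {X : Type v} (φ : X → Set P) : Set P :=
  fex fun R : X → X → Set P =>
    fand (IsFun R) (fand (IsInj R) (fall fun x => fall fun y => fimp (meets (R x y)) (φ y)))

/-- Every uncountable cardinal of the ground model is a cardinal of the extension: no function
from a set of smaller ground model cardinality `μ` to `ν` is onto. -/
def CardinalsPreserved (P : Type u) [Preorder P] : Set P :=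
  fall fun μ : Cardinal.{v} => fall fun ν : Cardinal.{v} => fall fun _ : μ < ν =>
    fall fun _ : ℵ₀ < ν =>
      fnot (fex fun R : μ.out → ν.out → Set P => fand (IsFun R) (IsOnto R))

/-- The named functions `x` and `y` from `ℕ` to `ℕ` are equal. -/
def SameReal (x y : ℕ → ℕ → Set P) : Set P :=
  fall fun n => fall fun a => fall fun b =>
    fimp (fand (meets (x n a)) (meets (y n b))) (fground (a = b))

/-- In the extension there is a map from `Y` onto the set of all functions from `ℕ` to `ℕ`. -/
def ContinuumLe (P : Type u) [Preorder P] (Y : Type v) : Set P :=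
  fex fun E : Y → ℕ → ℕ → Set P =>
    fand (fall fun y => IsFun (E y))
      (fall fun x : ℕ → ℕ → Set P => fimp (IsFun x) (fex fun y => SameReal x (E y)))

/-- In the extension the continuum is `κ`: there is a map from `κ` onto the Baire space and
there is none from a smaller cardinal. -/
def ContinuumIs (P : Type u) [Preorder P] (κ : Cardinal.{v}) : Set P :=
  fand (ContinuumLe P κ.out)
    (fall fun μ : Cardinal.{v} => fall fun _ : μ < κ => fnot (ContinuumLe P μ.out))

/-- The finite sequence `s` is an initial segment of the function named by `x`. -/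
def InitSeg (s : List ℕ) (x : ℕ → ℕ → Set P) : Set P :=
  fall fun i : ℕ => fall fun _ : i < s.length => meets (x i (s.getD i 0))

/-- `T` names a sequence of sets `T k` of finite sequences, such that every finite sequence has
an extension outside `T k`. So the closed sets of all `x` with all initial segments in `T k` are
nowhere dense. -/
def IsMeagerCode (T : ℕ → List ℕ → Set P) : Set P :=
  fall fun k => fall fun s => fex fun t => fand (fground (s <+: t)) (fnot (meets (T k t)))

/-- `x` belongs to the meager set coded by `T`: for some `k`, all initial segments of `x` are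
in `T k`. -/
def InMeager (x : ℕ → ℕ → Set P) (T : ℕ → List ℕ → Set P) : Set P :=
  fex fun k => fall fun s => fimp (InitSeg s x) (meets (T k s))

/-- In the extension the Baire space is covered by meager sets indexed by `Y`. -/
def CovLe (P : Type u) [Preorder P] (Y : Type v) : Set P :=
  fex fun T : Y → ℕ → List ℕ → Set P =>
    fand (fall fun y => IsMeagerCode (T y))
      (fall fun x : ℕ → ℕ → Set P => fimp (IsFun x) (fex fun y => InMeager x (T y)))

/-- In the extension `cov(M) = κ`: there is a cover of the Baire space by `κ` meager sets and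
none by fewer. -/
def CovIs (P : Type u) [Preorder P] (κ : Cardinal.{v}) : Set P :=
  fand (CovLe P κ.out)
    (fall fun μ : Cardinal.{v} => fall fun _ : μ < κ => fnot (CovLe P μ.out))

/-- In the extension there is a set of `κ` many elements of the Baire space which meets every
meager set in a set of size less than `κ`. -/
def HasLuzinSet (P : Type u) [Preorder P] (κ : Cardinal.{v}) : Set P :=
  fex fun E : κ.out → ℕ → ℕ → Set P =>
    fand (fall fun i => IsFun (E i))
      (fand (fall fun i => fall fun j => fall fun _ : i ≠ j => fnot (SameReal (E i) (E j)))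
        (fall fun T : ℕ → List ℕ → Set P =>
          fimp (IsMeagerCode T) (fnot (FullSize fun i => InMeager (E i) T))))

end

/-! ### General facts -/

section

variable {P : Type u} [Preorder P]

theorem mem_fex {ι : Sort v} {φ : ι → Set P} {p : P} :
    p ∈ fex φ ↔ ∀ q ≤ p, ∃ r ≤ q, ∃ i, r ∈ φ i := by
  simp only [fex, fnot, fall, Set.mem_ofPred_eq, not_forall, not_not]
  constructor
  · intro h q hq
    obtain ⟨i, r, hr, h'⟩ := h q hq
    exact ⟨r, hr, i, h'⟩
  · intro h q hq
    obtain ⟨r, hr, i, h'⟩ := h q hq
    exact ⟨i, r, hr, h'⟩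

theorem mem_fimp {φ ψ : Set P} {p : P} :
    p ∈ fimp φ ψ ↔ ∀ q ≤ p, q ∈ φ → ∃ r ≤ q, r ∈ ψ := by
  simp only [fimp, fnot, fand, Set.mem_ofPred_eq, not_and, not_forall, not_not]
  constructor
  · intro h q hq h'
    obtain ⟨r, hr, h''⟩ := h q hq h'
    exact ⟨r, hr, h''⟩
  · intro h q hq h'
    obtain ⟨r, hr, h''⟩ := h q hq h'
    exact ⟨r, hr, h''⟩

theorem mem_fand {φ ψ : Set P} {p : P} : p ∈ fand φ ψ ↔ p ∈ φ ∧ p ∈ ψ := Iff.rfl

theorem mem_fall {ι : Sort v} {φ : ι → Set P} {p : P} : p ∈ fall φ ↔ ∀ i, p ∈ φ i := Iff.rfl

theorem mem_fground {h : Prop} {p : P} : p ∈ fground (P := P) h ↔ h := Iff.rfl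

/-- The statement `φ` is preserved by passing to stronger conditions. -/
def Down (φ : Set P) : Prop := ∀ p ∈ φ, ∀ q ≤ p, q ∈ φ

theorem down_fnot (φ : Set P) : Down (fnot φ) :=
  fun _ hp _ hq r hr => hp r (hr.trans hq)

theorem down_fand {φ ψ : Set P} (h : Down φ) (h' : Down ψ) : Down (fand φ ψ) :=
  fun _ hp _ hq => ⟨h _ hp.1 _ hq, h' _ hp.2 _ hq⟩

theorem down_fall {ι : Sort v} {φ : ι → Set P} (h : ∀ i, Down (φ i)) : Down (fall φ) :=
  fun _ hp _ hq i => h i _ (hp i) _ hq

theorem down_fex {ι : Sort v} (φ : ι → Set P) : Down (fex φ) := down_fnot _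

theorem down_fimp (φ ψ : Set P) : Down (fimp φ ψ) := down_fnot _

theorem down_fground (h : Prop) : Down (fground (P := P) h) := fun _ hp _ _ => hp

theorem down_meets (N : Set P) : Down (meets N) :=
  fun _ hp _ hq r hr => hp r (hr.trans hq)

theorem down_IsFun {X : Type v} {Y : Type w} (R : X → Y → Set P) : Down (IsFun R) :=
  down_fand (down_fall fun _ => down_fex _)
    (down_fall fun _ => down_fall fun _ => down_fall fun _ => down_fimp _ _)

theorem down_IsInj {X : Type v} {Y : Type w} (R : X → Y → Set P) : Down (IsInj R) :=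
  down_fall fun _ => down_fall fun _ => down_fall fun _ => down_fimp _ _

theorem down_IsOnto {X : Type v} {Y : Type w} (R : X → Y → Set P) : Down (IsOnto R) :=
  down_fall fun _ => down_fex _

theorem down_SameReal (x y : ℕ → ℕ → Set P) : Down (SameReal x y) :=
  down_fall fun _ => down_fall fun _ => down_fall fun _ => down_fimp _ _

theorem down_InitSeg (s : List ℕ) (x : ℕ → ℕ → Set P) : Down (InitSeg s x) :=
  down_fall fun _ => down_fall fun _ => down_meets _

theorem down_IsMeagerCode (T : ℕ → List ℕ → Set P) : Down (IsMeagerCode T) :=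
  down_fall fun _ => down_fall fun _ => down_fex _

theorem down_InMeager (x : ℕ → ℕ → Set P) (T : ℕ → List ℕ → Set P) : Down (InMeager x T) :=
  down_fex _

theorem mem_fex_of_mem {ι : Sort v} {φ : ι → Set P} {p : P} (i : ι) (hd : Down (φ i))
    (h : p ∈ φ i) : p ∈ fex φ :=
  mem_fex.2 fun q hq => ⟨q, le_rfl, i, hd _ h _ hq⟩

theorem meets_of_mem {N : Set P} {p : P} (h : p ∈ N) : p ∈ meets N :=
  fun q hq => ⟨q, le_rfl, p, h, hq⟩

theorem meets_of_le {N : Set P} {p s : P} (hs : s ∈ N) (h : p ≤ s) : p ∈ meets N :=
  fun q hq => ⟨q, le_rfl, s, hs, hq.trans h⟩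

/-- for a set closed downwards -/
theorem exists_of_meets {N : Set P} (hN : Down N) {p : P} (h : p ∈ meets N) :
    ∃ q ≤ p, q ∈ N := by
  obtain ⟨r, hr, s, hs, hle⟩ := h p le_rfl
  exact ⟨r, hr, hN s hs r hle⟩

theorem IsFun.total {X : Type v} {Y : Type w} {R : X → Y → Set P} {p : P} (h : p ∈ IsFun R)
    (x : X) : ∃ q ≤ p, ∃ y, q ∈ meets (R x y) := mem_fex.1 (h.1 x) p le_rfl

theorem IsFun.unique {X : Type v} {Y : Type w} {R : X → Y → Set P} {p : P} (h : p ∈ IsFun R)
    {x : X} {y y' : Y} (h1 : p ∈ meets (R x y)) (h2 : p ∈ meets (R x y')) : y = y' := by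
  obtain ⟨r, _, hr⟩ := mem_fimp.1 (h.2 x y y') p le_rfl ⟨h1, h2⟩
  exact hr

theorem IsInj.eq {X : Type v} {Y : Type w} {R : X → Y → Set P} {p : P} (h : p ∈ IsInj R)
    {x x' : X} {y : Y} (h1 : p ∈ meets (R x y)) (h2 : p ∈ meets (R x' y)) : x = x' := by
  obtain ⟨r, _, hr⟩ := mem_fimp.1 (h x x' y) p le_rfl ⟨h1, h2⟩
  exact hr

theorem SameReal.eq {x y : ℕ → ℕ → Set P} {p : P} (h : p ∈ SameReal x y)
    {n a b : ℕ} (h1 : p ∈ meets (x n a)) (h2 : p ∈ meets (y n b)) : a = b := by
  obtain ⟨r, _, hr⟩ := mem_fimp.1 (h n a b) p le_rfl ⟨h1, h2⟩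
  exact hr

end

end Pool.Agent.Helper803.OD.Forcing
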