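import Mathlib
import Pool.Agent.Helper803.OD.Iter
import Pool.Agent.Helper803.OD.Forcing

/-!
# Finite support iterations of Cohen forcing and eventually different forcing

At the coordinates in `E` eventually different forcing is used, at the others Cohen forcing.
-/

namespace Pool.Agent.Helper803.OD.OIter

open Cardinal Pool.Agent.Helper803.OD.Iter Pool.Agent.Helper803.OD.Forcing

set_option linter.unusedSectionVars false

universe u

variable {I : Type u} [LinearOrder I] [WellFoundedLT I]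

/-- countable unions of basic sets -/
def COpen (B : Set (Rep I)) (ξ : I) (U : Set (Om I)) : Prop :=
  ∃ A ⊆ B, A.Countable ∧ U = ⋃ q ∈ A, bs q ξ

/-- promises saying that the new function is eventually different from a named function -/
def EStep (B : Set (Rep I)) (ξ : I) : Set (Pr I) :=
  {R | (∀ n m, COpen B ξ (R n m)) ∧
    ∀ n, ∀ q ∈ B, ∃ q' ∈ B, q' ≤ q ∧ ∃ m₀, ∀ m, m ≠ m₀ → bs q' ξ ⊆ R n m}

/-- the admissible promises, by recursion; none outside `E` -/
noncomputable def ER (E : Set I) : I → Set (Pr I) :=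
  WellFoundedLT.fix (motive := fun _ : I => Set (Pr I)) fun ξ f =>
    {R | ξ ∈ E ∧ R ∈ EStep {r | (∀ η, ∀ h : η < ξ, ∀ R ∈ r.pr η, R ∈ f η h) ∧ Below r ξ} ξ}

theorem ER_eq (E : Set I) (ξ : I) : ER E ξ = {R | ξ ∈ E ∧ R ∈ EStep (Vd (ER E) ξ) ξ} := by
  have h : ER E ξ = {R | ξ ∈ E ∧ R ∈ EStep
      {r | (∀ η, ∀ _ : η < ξ, ∀ R ∈ r.pr η, R ∈ ER E η) ∧ Below r ξ} ξ} := by
    conv_lhs => rw [ER, WellFoundedLT.fix_eq]
    rfl
  have h2 : {r : Rep I | (∀ η, ∀ _ : η < ξ, ∀ R ∈ r.pr η, R ∈ ER E η) ∧ Below r ξ} =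
      Vd (ER E) ξ := by
    ext r
    constructor
    · rintro ⟨h1, h2⟩
      refine ⟨fun η R hR => ?_, h2⟩
      by_cases hη : η < ξ
      · exact h1 η hη R hR
      · rw [(h2 η (not_lt.1 hη)).2] at hR
        exact absurd hR (Finset.notMem_empty R)
    · rintro ⟨h1, h2⟩
      exact ⟨fun η _ R hR => h1 η R hR, h2⟩
  rw [h, h2]

theorem mem_ER {E : Set I} {ξ : I} {R : Pr I} :
    R ∈ ER E ξ ↔ ξ ∈ E ∧ R ∈ EStep (Vd (ER E) ξ) ξ := by
  rw [ER_eq]; rfl

theorem finset_amal (E : Set I) (ξ : I) (F : Finset (Pr I)) : (∀ R ∈ F, R ∈ ER E ξ) → ∀ n,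
    ∀ q ∈ Vd (ER E) ξ,
    ∃ q' ∈ Vd (ER E) ξ, q' ≤ q ∧ ∃ D : Finset ℕ, ∀ m ∉ D, ∀ R ∈ F, bs q' ξ ⊆ R n m := by
  classical
  induction F using Finset.induction_on with
  | empty => intro _ n q hq; exact ⟨q, hq, le_rfl, ∅, by simp⟩
  | insert R F _ ih =>
    intro h n q hq
    obtain ⟨q', hq', hle, D, hD⟩ := ih (fun R hR => h R (Finset.mem_insert_of_mem hR)) n q hq
    have hR := (mem_ER.1 (h R (Finset.mem_insert_self R F))).2
    obtain ⟨q'', hq'', hle', m₀, hm₀⟩ := hR.2 n q' hq'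
    refine ⟨q'', hq'', hle'.trans hle, insert m₀ D, fun m hm R' hR' => ?_⟩
    rw [Finset.mem_insert, not_or] at hm
    rcases Finset.mem_insert.1 hR' with rfl | hR'
    · exact hm₀ m hm.1
    · exact (bs_le hle' ξ).trans (hD m hm.2 R' hR')

theorem good (E : Set I) (ξ : I) : Good (ER E) ξ where
  opn R hR n m w hw := by
    obtain ⟨A, hA, _, hU⟩ := (mem_ER.1 hR).2.1 n m
    rw [hU] at hw ⊢
    simp only [Set.mem_iUnion] at hw
    obtain ⟨q, hq, hwq⟩ := hw
    exact ⟨q, hA hq, hwq, Set.subset_biUnion_of_mem (u := fun q => bs q ξ) hq⟩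
  amal F hF n q hq := by
    obtain ⟨q', hq', hle, D, hD⟩ := finset_amal E ξ F hF n q hq
    obtain ⟨m, hm⟩ := Infinite.exists_notMem_finset D
    exact ⟨q', hq', hle, m, hD m hm⟩

/-- the trivial promise -/
def triv : Pr I := fun _ _ => Set.univ

theorem triv_mem {E : Set I} {ξ : I} (h : ξ ∈ E) : triv ∈ ER E ξ := by
  rw [mem_ER]
  refine ⟨h, fun n m => ⟨{one I}, ?_, Set.countable_singleton _, ?_⟩,
    fun n q hq => ⟨q, hq, le_rfl, 0, fun m _ => Set.subset_univ _⟩⟩
  · rintro _ rfl; exact one_mem _ _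
  · simp [triv, bs, one]

/-! ## The poset -/

section
variable {J : Type u} [LinearOrder J] [WellFoundedLT J] {E : Set (WithTop J)}

/-- the conditions of the iteration of length `J` -/
def Cond (E : Set (WithTop J)) : Type u :=
  {r : Rep (WithTop J) // r ∈ Vd (ER E) ⊤}

instance : Preorder (Cond E) :=
  inferInstanceAs (Preorder {r : Rep (WithTop J) // r ∈ Vd (ER E) ⊤})

theorem le_iff {p q : Cond E} : p ≤ q ↔ p.1 ≤ q.1 := Iff.rfl

instance : Nonempty (Cond E) := ⟨⟨one _, one_mem _ _⟩⟩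

/-- compatibility -/
def Compat {P : Type u} [Preorder P] (p q : P) : Prop := ∃ s, s ≤ p ∧ s ≤ q

/-- the part of `p` below `ξ` -/
noncomputable def resP (p : Cond E) (ξ : WithTop J) : Cond E :=
  ⟨res p.1 ξ, adm_res p.2.1 ξ, (below_res p.1 ξ).mono le_top⟩

/-- `q` below `ξ` and `p` from `ξ` on -/
noncomputable def glueP (q p : Cond E) (ξ : WithTop J) : Cond E :=
  ⟨glue q.1 p.1 ξ, adm_glue q.2.1 p.2.1 ξ, fun ζ hζ => by
    rw [glue_st_ge (le_top.trans hζ), glue_pr_ge (le_top.trans hζ)]; exact p.2.2 ζ hζ⟩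

theorem resP_mem (p : Cond E) (ξ : WithTop J) : (resP p ξ).1 ∈ Vd (ER E) ξ := res_mem p.2.1 ξ

theorem below_resP (p : Cond E) (ξ : WithTop J) : Below (resP p ξ).1 ξ := below_res p.1 ξ

theorem le_resP (p : Cond E) (ξ : WithTop J) : p ≤ resP p ξ := le_res p.1 ξ

theorem resP_mono {p q : Cond E} (h : p ≤ q) (ξ : WithTop J) : resP p ξ ≤ resP q ξ :=
  res_mono (r := p.1) (q := q.1) h ξ

theorem resP_eq {p : Cond E} {ξ : WithTop J} (h : Below p.1 ξ) : resP p ξ = p :=
  Subtype.ext (res_eq_self h)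

theorem resP_le {p q : Cond E} {ξ : WithTop J} (h : p ≤ q) (hq : Below q.1 ξ) : resP p ξ ≤ q :=
  res_le (r := p.1) (q := q.1) h hq

theorem glueP_le {q p : Cond E} {ξ : WithTop J} (h : q ≤ resP p ξ) : glueP q p ξ ≤ p :=
  glue_le (q := q.1) (r := p.1) h

theorem glueP_le_left {q p : Cond E} {ξ : WithTop J} (h : Below q.1 ξ) : glueP q p ξ ≤ q :=
  glue_le_left (q := q.1) (r := p.1) h

theorem resP_glueP (q p : Cond E) (ξ : WithTop J) : resP (glueP q p ξ) ξ = resP q ξ := by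
  apply Subtype.ext
  ext1 <;> funext η
  · show (res (glue q.1 p.1 ξ) ξ).st η = (res q.1 ξ).st η
    by_cases h : η < ξ
    · rw [res_st_lt h, res_st_lt h, glue_st_lt h]
    · rw [res_st_ge (not_lt.1 h), res_st_ge (not_lt.1 h)]
  · show (res (glue q.1 p.1 ξ) ξ).pr η = (res q.1 ξ).pr η
    by_cases h : η < ξ
    · rw [res_pr_lt h, res_pr_lt h, glue_pr_lt h]
    · rw [res_pr_ge (not_lt.1 h), res_pr_ge (not_lt.1 h)]

/-- a condition below `ξ` which is compatible with the part of `p` below `ξ` -/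
theorem compat_res {q p : Cond E} {ξ : WithTop J} (hq : Below q.1 ξ) (h : Compat q (resP p ξ)) :
    ∃ s : Cond E, s ≤ q ∧ s ≤ p ∧ ∀ ζ, ξ ≤ ζ → s.1.st ζ = p.1.st ζ := by
  obtain ⟨s, h1, h2⟩ := h
  have h3 : resP s ξ ≤ q := resP_le h1 hq
  have h4 : resP s ξ ≤ resP p ξ := resP_le h2 (below_res p.1 ξ)
  exact ⟨glueP (resP s ξ) p ξ, (glueP_le_left (below_res s.1 ξ)).trans h3, glueP_le h4,
    fun ζ hζ => glue_st_ge hζ⟩

/-! ### Chain condition and maximal antichains -/

theorem cond_ccc {Y : Type u} (f : Y → Cond E) (hY : ¬ Countable Y) :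
    ∃ y y', y ≠ y' ∧ Compat (f y) (f y') := by
  obtain ⟨y, y', hne, q, hq, h1, h2⟩ := ccc (RR := ER E) (τ := (⊤ : WithTop J)) (fun y => (f y).1)
    (fun y => (f y).2) hY
  exact ⟨y, y', hne, ⟨q, hq⟩, h1, h2⟩

/-- inside every set `D` of conditions below `ξ` which is dense among those, there is a countable
antichain which meets every condition -/
theorem exists_antichain_below (ξ : WithTop J) (D : Set (Cond E)) (hDξ : ∀ q ∈ D, Below q.1 ξ)
    (hD : ∀ p : Cond E, Below p.1 ξ → ∃ q ≤ p, q ∈ D) :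
    ∃ A ⊆ D, A.Countable ∧ (∀ p, ∃ a ∈ A, Compat a p) ∧
      ∀ a ∈ A, ∀ b ∈ A, Compat a b → a = b := by
  obtain ⟨A, hA⟩ := zorn_subset {A : Set (Cond E) | A ⊆ D ∧ ∀ a ∈ A, ∀ b ∈ A, Compat a b → a = b}
    (by
      intro c hc hchain
      refine ⟨⋃₀ c, ⟨Set.sUnion_subset fun s hs => (hc hs).1, ?_⟩,
        fun s hs => Set.subset_sUnion_of_mem hs⟩
      rintro a ⟨s, hs, ha⟩ b ⟨t, ht, hb⟩ hab
      rcases hchain.total hs ht with h | h
      · exact (hc ht).2 a (h ha) b hb hab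
      · exact (hc hs).2 a ha b (h hb) hab)
  refine ⟨A, hA.prop.1, ?_, ?_, hA.prop.2⟩
  · by_contra hcount
    have hcount' : ¬ Countable A := hcount
    obtain ⟨y, y', hne, h⟩ := cond_ccc (fun a : A => a.1) hcount'
    exact hne (Subtype.ext (hA.prop.2 y.1 y.2 y'.1 y'.2 h))
  · have key : ∀ p : Cond E, Below p.1 ξ → ∃ a ∈ A, Compat a p := by
      intro p hp
      by_contra hcon
      push Not at hcon
      obtain ⟨q, hqp, hqD⟩ := hD p hp
      have hq : q ∉ A := by
        intro hq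
        exact hcon q hq ⟨q, le_rfl, hqp⟩
      have hcon' : ∀ a ∈ A, ¬ Compat a q := by
        rintro a ha ⟨s, h1, h2⟩
        exact hcon a ha ⟨s, h1, h2.trans hqp⟩
      have hmem : insert q A ∈
          {A : Set (Cond E) | A ⊆ D ∧ ∀ a ∈ A, ∀ b ∈ A, Compat a b → a = b} := by
        refine ⟨Set.insert_subset hqD hA.prop.1, ?_⟩
        rintro a (rfl | ha) b (rfl | hb) hab
        · rfl
        · obtain ⟨s, h1, h2⟩ := hab
          exact absurd ⟨s, h2, h1⟩ (hcon' b hb)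
        · exact absurd hab (hcon' a ha)
        · exact hA.prop.2 a ha b hb hab
      exact hq (hA.le_of_ge hmem (Set.subset_insert q A) (Set.mem_insert q A))
    intro p
    obtain ⟨a, ha, hc⟩ := key (resP p ξ) (below_resP p ξ)
    obtain ⟨s, h1, h2, _⟩ := compat_res (hDξ a (hA.prop.1 ha)) hc
    exact ⟨a, ha, s, h1, h2⟩

/-- inside every dense set there is a countable set compatible with everything, and consisting
of pairwise incompatible conditions -/
theorem exists_antichain (D : Set (Cond E)) (hD : ∀ p, ∃ q ≤ p, q ∈ D) :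
    ∃ A ⊆ D, A.Countable ∧ (∀ p, ∃ a ∈ A, Compat a p) ∧
      ∀ a ∈ A, ∀ b ∈ A, Compat a b → a = b :=
  exists_antichain_below ⊤ D (fun q _ => q.2.2) fun p _ => hD p

/-- the supports of countably many conditions are bounded -/
theorem exists_below (hcof : ∀ S : Set J, S.Countable → ∃ b, ∀ s ∈ S, s < b)
    {A : Set (Cond E)} (hA : A.Countable) : ∃ b : J, ∀ a ∈ A, Below a.1 (b : WithTop J) := by
  obtain ⟨b, hb⟩ := hcof (⋃ a ∈ A, {j : J | (j : WithTop J) ∈ supp a.1}) (by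
    refine hA.biUnion fun a _ => ?_
    refine Set.Countable.preimage_of_injOn (a.1.fin.countable) ?_
    intro x _ y _ h
    exact WithTop.coe_injective h)
  refine ⟨b, fun a ha η hη => ?_⟩
  by_contra hcon
  have hs : η ∈ supp a.1 := by
    by_contra h
    exact hcon (notMem_supp h)
  induction η using WithTop.recTopCoe with
  | top => exact hcon (a.2.2 ⊤ le_rfl)
  | coe j =>
    have := hb j (Set.mem_biUnion ha hs)
    exact absurd (WithTop.coe_le_coe.1 hη) (not_le.2 this)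

/-! ### Extending stems -/

/-- The stem at `η` can be extended by a number from any given infinite set without changing
later stems. -/
theorem push_one (r : Cond E) (η : J) (S : Set ℕ) (hS : S.Infinite) :
    ∃ m ∈ S, ∃ r' ≤ r, r'.1.st (η : WithTop J) = r.1.st η ++ [m] ∧
      ∀ ζ : WithTop J, (η : WithTop J) < ζ → r'.1.st ζ = r.1.st ζ := by
  have hη : (η : WithTop J) < ⊤ := WithTop.coe_lt_top η
  obtain ⟨q, hq, hle, D, hD⟩ := finset_amal E (η : WithTop J) (r.1.pr η) (r.2.1 η)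
    (r.1.st η).length (res r.1 η) (res_mem r.2.1 η)
  obtain ⟨m, hm, hmD⟩ := hS.exists_notMem_finset D
  refine ⟨m, hm, ⟨push (glue q r.1 η) η m, push_mem (glue_mem hq r.2 hη.le) hη m⟩, ?_, ?_, ?_⟩
  · show push (glue q r.1 η) η m ≤ r.1
    refine le_trans (push_le fun R hR => ?_) (glue_le hle)
    rw [glue_pr_ge le_rfl] at hR
    rw [glue_st_ge le_rfl, bs_glue le_rfl]
    exact hD m hmD R hR
  · show (push (glue q r.1 η) η m).st η = _
    rw [push_st_self, glue_st_ge le_rfl]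
  · intro ζ hζ
    show (push (glue q r.1 η) η m).st ζ = _
    rw [push_st_ne _ _ hζ.ne', glue_st_ge hζ.le]

/-- The stem at `η` can be lengthened arbitrarily without changing later stems. -/
theorem push_long (r : Cond E) (η : J) (N : ℕ) :
    ∃ r' ≤ r, N < (r'.1.st (η : WithTop J)).length ∧
      ∀ ζ : WithTop J, (η : WithTop J) < ζ → r'.1.st ζ = r.1.st ζ := by
  induction N with
  | zero =>
    obtain ⟨m, _, r', h1, h2, h3⟩ := push_one r η Set.univ Set.infinite_univ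
    exact ⟨r', h1, by rw [h2]; simp, h3⟩
  | succ N ih =>
    obtain ⟨r', h1, h2, h3⟩ := ih
    obtain ⟨m, _, r'', h4, h5, h6⟩ := push_one r' η Set.univ Set.infinite_univ
    refine ⟨r'', h4.trans h1, by rw [h5]; simp; omega, fun ζ hζ => (h6 ζ hζ).trans (h3 ζ hζ)⟩

/-! ### Assembling conditions -/

open Classical in
/-- `a` below `ζ`, then stem `t` and promises `Q` at `ζ`, then `b` -/
noncomputable def mk3 (a : Rep (WithTop J)) (ζ : WithTop J) (t : List ℕ)
    (Q : Finset (Pr (WithTop J))) (b : Rep (WithTop J)) : Rep (WithTop J) where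
  st η := if η < ζ then a.st η else if η = ζ then t else b.st η
  pr η := if η < ζ then a.pr η else if η = ζ then Q else b.pr η
  fin := by
    refine ((a.fin.union b.fin).union (Set.finite_singleton ζ)).subset fun η hη => ?_
    by_cases h1 : η < ζ
    · left; left; simpa [h1] using hη
    · by_cases h2 : η = ζ
      · right; exact h2
      · left; right; simpa [h1, h2] using hη

section
variable {a b : Rep (WithTop J)} {ζ η : WithTop J} {t : List ℕ} {Q : Finset (Pr (WithTop J))}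

theorem mk3_st_lt (h : η < ζ) : (mk3 a ζ t Q b).st η = a.st η := if_pos h
theorem mk3_pr_lt (h : η < ζ) : (mk3 a ζ t Q b).pr η = a.pr η := if_pos h
theorem mk3_st_self : (mk3 a ζ t Q b).st ζ = t := by simp [mk3]
theorem mk3_pr_self : (mk3 a ζ t Q b).pr ζ = Q := by simp [mk3]
theorem mk3_st_gt (h : ζ < η) : (mk3 a ζ t Q b).st η = b.st η := by
  simp [mk3, h.not_gt, h.ne']
theorem mk3_pr_gt (h : ζ < η) : (mk3 a ζ t Q b).pr η = b.pr η := by
  simp [mk3, h.not_gt, h.ne']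

theorem bs_mk3 (h : η ≤ ζ) : bs (mk3 a ζ t Q b) η = bs a η :=
  bs_congr fun _ hx => ⟨mk3_st_lt (hx.trans_le h), mk3_pr_lt (hx.trans_le h)⟩

theorem res_mk3 : res (mk3 a ζ t Q b) ζ = res a ζ := by
  ext1 <;> funext η
  · by_cases h : η < ζ
    · rw [res_st_lt h, res_st_lt h, mk3_st_lt h]
    · rw [res_st_ge (not_lt.1 h), res_st_ge (not_lt.1 h)]
  · by_cases h : η < ζ
    · rw [res_pr_lt h, res_pr_lt h, mk3_pr_lt h]
    · rw [res_pr_ge (not_lt.1 h), res_pr_ge (not_lt.1 h)]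

theorem mk3_le {r : Rep (WithTop J)} (h1 : a ≤ res r ζ) (h2 : r.st ζ <+: t) (h3 : r.pr ζ ⊆ Q)
    (h4 : ∀ R ∈ r.pr ζ, ∀ i, (r.st ζ).length ≤ i → i < t.length → bs a ζ ⊆ R i (t.getD i 0))
    (h5 : ∀ η, ζ < η → (r.st η = [] ∧ r.pr η = ∅) ∨ (b.st η = r.st η ∧ b.pr η = r.pr η)) :
    mk3 a ζ t Q b ≤ r := by
  intro η
  rcases lt_trichotomy η ζ with h | rfl | h
  · rw [mk3_st_lt h, mk3_pr_lt h, bs_mk3 h.le]
    have := h1 η
    rwa [res_st_lt h, res_pr_lt h] at this
  · rw [mk3_st_self, mk3_pr_self, bs_mk3 le_rfl]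
    exact ⟨h2, h3, h4⟩
  · rw [mk3_st_gt h, mk3_pr_gt h]
    rcases h5 η h with ⟨h6, h7⟩ | ⟨h6, h7⟩
    · rw [h6, h7]
      exact ⟨List.nil_prefix, Finset.empty_subset _, fun R hR => absurd hR (Finset.notMem_empty R)⟩
    · rw [h6, h7]
      exact ⟨List.prefix_refl _, Finset.Subset.refl _, fun _ _ _ h h' => absurd h' (not_lt.2 h)⟩

end

/-- the condition with `a` below `ζ`, then stem `t` and promises `Q` at `ζ`, then `b` -/
noncomputable def mkP (a : Cond E) (ζ : J) (t : List ℕ) (Q : Finset (Pr (WithTop J)))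
    (hQ : ∀ R ∈ Q, R ∈ ER E (ζ : WithTop J)) (b : Cond E) : Cond E :=
  ⟨mk3 a.1 ζ t Q b.1, fun η R hR => by
    rcases lt_trichotomy η (ζ : WithTop J) with h | rfl | h
    · rw [mk3_pr_lt h] at hR; exact a.2.1 η R hR
    · rw [mk3_pr_self] at hR; exact hQ R hR
    · rw [mk3_pr_gt h] at hR; exact b.2.1 η R hR,
   fun η hη => by
    have h : (ζ : WithTop J) < η := (WithTop.coe_lt_top ζ).trans_le hη
    rw [mk3_st_gt h, mk3_pr_gt h]
    exact b.2.2 η hη⟩

end

end Pool.Agent.Helper803.OD.OIter
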