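import Mathlib
import Pool.Agent.Helper803.OD.OIter

/-!
# Working notions for the iteration: regular sets of conditions, names below a cut, types
-/

namespace Pool.Agent.Helper803.OD.ODefs

open Cardinal Pool.Agent.Helper803.OD.Iter Pool.Agent.Helper803.OD.Forcing
  Pool.Agent.Helper803.OD.OIter

set_option linter.unusedSectionVars false

universe u

section
variable {P : Type u} [Preorder P]

/-- closed downwards, and containing every condition below which it is dense -/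
def Reg (φ : Set P) : Prop := Down φ ∧ ∀ p, (∀ q ≤ p, ∃ r ≤ q, r ∈ φ) → p ∈ φ

theorem reg_meets (N : Set P) : Reg (meets N) := by
  refine ⟨down_meets N, fun p h q hq => ?_⟩
  obtain ⟨r, hr, h1⟩ := h q hq
  obtain ⟨s, hs, t, ht, h2⟩ := h1 r le_rfl
  exact ⟨s, hs.trans hr, t, ht, h2⟩

theorem reg_fnot (φ : Set P) (h : Down φ) : Reg (fnot φ) := by
  refine ⟨down_fnot φ, fun p h1 q hq hqφ => ?_⟩
  obtain ⟨r, hr, h2⟩ := h1 q hq
  exact h2 r le_rfl (h q hqφ r hr)

theorem meets_eq {φ : Set P} (h : Reg φ) : meets φ = φ := by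
  ext p
  constructor
  · intro hp
    refine h.2 p fun q hq => ?_
    obtain ⟨r, hr, s, hs, hrs⟩ := hp q hq
    exact ⟨r, hr, h.1 s hs r hrs⟩
  · exact fun hp => meets_of_mem hp

theorem exists_fnot {φ : Set P} (h : Reg φ) {p : P} (hp : p ∉ φ) : ∃ q ≤ p, q ∈ fnot φ := by
  by_contra hcon
  push Not at hcon
  refine hp (h.2 p fun q hq => ?_)
  by_contra h1
  push Not at h1
  exact hcon q hq fun r hr => h1 r hr

/-- `p` forces `X ∖ k ⊆ Y`, for names given by regular sets -/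
def SubAt (p : P) (X Y : ℕ → Set P) (k : ℕ) : Prop :=
  ∀ m, k ≤ m → ∀ s ≤ p, s ∈ X m → s ∈ Y m

/-- `p` forces that `X` is almost contained in `Y` -/
def ASub (p : P) (X Y : ℕ → Set P) : Prop := ∀ r ≤ p, ∃ s ≤ r, ∃ k, SubAt s X Y k

theorem SubAt.mono {p q : P} {X Y : ℕ → Set P} {k l : ℕ} (h : SubAt p X Y k) (hq : q ≤ p)
    (hkl : k ≤ l) : SubAt q X Y l := fun m hm s hs => h m (hkl.trans hm) s (hs.trans hq)

theorem ASub.mono {p q : P} {X Y : ℕ → Set P} (h : ASub p X Y) (hq : q ≤ p) : ASub q X Y :=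
  fun r hr => h r (hr.trans hq)

/-- a name `H` of a function from `ℕ` to `ℕ`: `H m y` is the set of the conditions forcing
that the value at `m` is at most `y` -/
structure FName (H : ℕ → ℕ → Set P) : Prop where
  down : ∀ m y, Down (H m y)
  mono : ∀ m y y', y ≤ y' → H m y ⊆ H m y'
  dense : ∀ m p, ∃ q ≤ p, ∃ y, q ∈ H m y

/-- `p` forces that `X` meets the interval `[m, H m]` for all `m ≥ k` -/
def Bd (p : P) (H : ℕ → ℕ → Set P) (X : ℕ → Set P) (k : ℕ) : Prop :=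
  ∀ m, k ≤ m → ∀ y, ∀ r ≤ p, r ∈ H m y → ∃ r' ≤ r, ∃ z, m ≤ z ∧ z ≤ y ∧ r' ∈ X z

/-- `p` forces that `X` meets the interval `[m, H m]` for almost all `m` -/
def ABd (p : P) (H : ℕ → ℕ → Set P) (X : ℕ → Set P) : Prop := ∀ r ≤ p, ∃ s ≤ r, ∃ k, Bd s H X k

theorem Bd.mono {p q : P} {H : ℕ → ℕ → Set P} {X : ℕ → Set P} {k l : ℕ} (h : Bd p H X k)
    (hq : q ≤ p) (hkl : k ≤ l) : Bd q H X l :=
  fun m hm y r hr => h m (hkl.trans hm) y r (hr.trans hq)

theorem ABd.mono {p q : P} {H : ℕ → ℕ → Set P} {X : ℕ → Set P} (h : ABd p H X) (hq : q ≤ p) :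
    ABd q H X := fun r hr => h r (hr.trans hq)

theorem Bd.of_sub {p : P} {H : ℕ → ℕ → Set P} {X Y : ℕ → Set P} {k l : ℕ} (h : Bd p H X k)
    (hs : SubAt p X Y l) : Bd p H Y (max k l) := by
  intro m hm y r hr hH
  obtain ⟨r', hr', z, h1, h2, h3⟩ := h m ((le_max_left _ _).trans hm) y r hr hH
  exact ⟨r', hr', z, h1, h2, hs z (((le_max_right _ _).trans hm).trans h1) r' (hr'.trans hr) h3⟩

end

section
variable {J : Type u} [LinearOrder J] [WellFoundedLT J] {E : Set (WithTop J)}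

/-- `φ` only depends on the part below `ξ` -/
def Loc (ξ : WithTop J) (φ : Set (Cond E)) : Prop := ∀ p, p ∈ φ ↔ resP p ξ ∈ φ

theorem resP_resP (p : Cond E) {ξ η : WithTop J} (h : ξ ≤ η) : resP (resP p η) ξ = resP p ξ := by
  apply Subtype.ext
  ext1 <;> funext ζ
  · show (res (res p.1 η) ξ).st ζ = (res p.1 ξ).st ζ
    by_cases h' : ζ < ξ
    · rw [res_st_lt h', res_st_lt h', res_st_lt (h'.trans_le h)]
    · rw [res_st_ge (not_lt.1 h'), res_st_ge (not_lt.1 h')]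
  · show (res (res p.1 η) ξ).pr ζ = (res p.1 ξ).pr ζ
    by_cases h' : ζ < ξ
    · rw [res_pr_lt h', res_pr_lt h', res_pr_lt (h'.trans_le h)]
    · rw [res_pr_ge (not_lt.1 h'), res_pr_ge (not_lt.1 h')]

theorem Loc.mono {ξ η : WithTop J} {φ : Set (Cond E)} (h : Loc ξ φ) (h' : ξ ≤ η) : Loc η φ := by
  intro p
  rw [h p, h (resP p η), resP_resP p h']

theorem loc_top (φ : Set (Cond E)) : Loc ⊤ φ := fun p => by rw [resP_eq p.2.2]

/-- a set of conditions below `ξ` -/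
theorem loc_meets {ξ : WithTop J} {N : Set (Cond E)} (h : ∀ p ∈ N, Below p.1 ξ) :
    Loc ξ (meets N) := by
  intro p
  constructor
  · intro hp q hq
    obtain ⟨r, hr, s, hs, hrs⟩ := hp (glueP (resP q ξ) p ξ) (glueP_le (resP_le hq (below_resP p ξ)))
    obtain ⟨t, ht1, ht2, _⟩ := compat_res (q := resP r ξ) (p := q) (ξ := ξ) (below_resP r ξ)
      ⟨resP r ξ, le_rfl, by
        have := resP_mono hr ξ
        rw [resP_glueP, resP_resP q le_rfl] at this
        exact this⟩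
    exact ⟨t, ht2, s, hs, ht1.trans (resP_le hrs (h s hs))⟩
  · exact fun hp => down_meets N _ hp _ (le_resP p ξ)

/-- the part of `q` below `ξ` is compatible with `p`, in a strong sense -/
theorem exists_glue {q p : Cond E} {ξ : WithTop J} (h : q ≤ resP p ξ) :
    ∃ s, s ≤ p ∧ resP s ξ = resP q ξ ∧ s ≤ resP q ξ := by
  have h1 : resP q ξ ≤ resP p ξ := by
    have := resP_mono h ξ
    rwa [resP_resP p le_rfl] at this
  exact ⟨glueP (resP q ξ) p ξ, glueP_le h1, by rw [resP_glueP, resP_resP q le_rfl],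
    glueP_le_left (below_resP q ξ)⟩

/-- the last nontrivial coordinate is `ζ`, with stem `t` and at most `k` promises -/
def TyOne (ζ : J) (t : List ℕ) (k : ℕ) (r : Cond E) : Prop :=
  r.1.st ζ = t ∧ (r.1.pr ζ).card ≤ k ∧ ∀ η, (ζ : WithTop J) < η → r.1.st η = [] ∧ r.1.pr η = ∅

/-- the basic compactness property of the iteration -/
def Fusion (E : Set (WithTop J)) : Prop :=
  ∀ (ζ : J) (t : List ℕ) (k : ℕ) (X : ℕ → Set (Cond E)), (∀ M, Down (X M)) →
    (∀ M M', M ≤ M' → X M ⊆ X M') → (∀ p, ∃ q ≤ p, ∃ M, q ∈ X M) →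
    ∀ u : Cond E, Below u.1 (ζ : WithTop J) → ∃ u' ≤ u, Below u'.1 (ζ : WithTop J) ∧ ∃ M,
      ∀ r : Cond E, TyOne ζ t k r → resP r ζ ≤ u' → ∃ r' ≤ r, r' ∈ X M

end

end Pool.Agent.Helper803.OD.ODefs
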