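import Mathlib
import Pool.Agent.Helper803.OD.OSupp

namespace Pool.Agent.Helper803.OD.OCount

open Cardinal Pool.Agent.Helper803.OD.Iter Pool.Agent.Helper803.OD.Forcing
  Pool.Agent.Helper803.OD.OIter Pool.Agent.Helper803.OD.ODefs Pool.Agent.Helper803.OD.OSupp

set_option linter.unusedSectionVars false

universe u

variable {I : Type u} [LinearOrder I] [WellFoundedLT I]

theorem oc_COpen_mono {B B' : Set (Rep I)} {ξ : I} {U : Set (Om I)} (h : B ⊆ B')
    (hU : COpen B ξ U) : COpen B' ξ U := by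
  obtain ⟨A, hA, hAc, hAU⟩ := hU
  exact ⟨A, hA.trans h, hAc, hAU⟩

theorem oc_lt_of_pr {r : Rep I} {ξ η : I} (h : Below r ξ) {R : Pr I} (hR : R ∈ r.pr η) : η < ξ := by
  by_contra hc
  rw [(h η (not_lt.1 hc)).2] at hR
  exact absurd hR (Finset.notMem_empty R)

theorem oc_lt_of_st {r : Rep I} {ξ η : I} (h : Below r ξ) (hs : r.st η ≠ []) : η < ξ := by
  by_contra hc
  exact hs (h η (not_lt.1 hc)).1

theorem oc_ERK_mono {E K K' : Set I} (h : K ⊆ K') (ξ : I) : ERK E K ξ ⊆ ERK E K' ξ := by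
  induction ξ using WellFoundedLT.induction with
  | ind ξ IH =>
    intro R hR
    rw [mem_ERK] at hR ⊢
    obtain ⟨h1, h2, h3⟩ := hR
    refine ⟨h1, h h2, fun n m => oc_COpen_mono ?_ (h3 n m)⟩
    rintro r ⟨hr1, hr2, hr3⟩
    exact ⟨fun η R hR => IH η (oc_lt_of_pr hr2 hR) (hr1 η R hR), hr2, fun η hη => h (hr3 η hη)⟩

theorem VK_mono {E K K' : Set I} (h : K ⊆ K') (ξ : I) : VK E K ξ ⊆ VK E K' ξ := by
  rintro r ⟨hr1, hr2, hr3⟩
  exact ⟨fun η R hR => oc_ERK_mono h η (hr1 η R hR), hr2, fun η hη => h (hr3 η hη)⟩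

theorem oc_ERK_below {E K : Set I} (ξ ζ : I) (hζ : ζ < ξ) :
    ERK E K ζ ⊆ ERK E (K ∩ Set.Iio ξ) ζ := by
  induction ζ using WellFoundedLT.induction with
  | ind ζ IH =>
    intro R hR
    rw [mem_ERK] at hR ⊢
    obtain ⟨h1, h2, h3⟩ := hR
    refine ⟨h1, ⟨h2, hζ⟩, fun n m => oc_COpen_mono ?_ (h3 n m)⟩
    rintro r ⟨hr1, hr2, hr3⟩
    refine ⟨fun η R hR => ?_, hr2, fun η hη => ⟨hr3 η hη, (oc_lt_of_st hr2 hη).trans hζ⟩⟩
    have hlt := oc_lt_of_pr hr2 hR
    exact IH η hlt (hlt.trans hζ) (hr1 η R hR)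

theorem VK_below {E K : Set I} {ξ η : I} {r : Rep I} (h : r ∈ VK E K η) (h' : Below r ξ) :
    r ∈ VK E (K ∩ Set.Iio ξ) η := by
  obtain ⟨hr1, hr2, hr3⟩ := h
  refine ⟨fun ζ R hR => ?_, hr2, fun ζ hζ => ⟨hr3 ζ hζ, oc_lt_of_st h' hζ⟩⟩
  exact oc_ERK_below ξ ζ (oc_lt_of_pr h' hR) (hr1 ζ R hR)

theorem exists_countable_support {E : Set I} {ξ : I} {r : Rep I} (hr : r ∈ Vd (ER E) ξ) :
    ∃ K : Set I, K.Countable ∧ r ∈ VK E K ξ := by
  induction ξ using WellFoundedLT.induction generalizing r with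
  | ind ξ IH =>
    have h1 : ∀ η : I, ∀ R : Pr I, ∃ K : Set I, K.Countable ∧
        (η < ξ → R ∈ ER E η → R ∈ ERK E K η) := by
      intro η R
      by_cases hη : η < ξ
      swap
      · exact ⟨∅, Set.countable_empty, fun h => absurd h hη⟩
      by_cases hR : R ∈ ER E η
      swap
      · exact ⟨∅, Set.countable_empty, fun _ h => absurd h hR⟩
      have hq : ∀ q : Rep I, ∃ K : Set I, K.Countable ∧ (q ∈ Vd (ER E) η → q ∈ VK E K η) := by
        intro q
        by_cases hq : q ∈ Vd (ER E) η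
        · obtain ⟨K, hK, hqK⟩ := IH η hη hq
          exact ⟨K, hK, fun _ => hqK⟩
        · exact ⟨∅, Set.countable_empty, fun h => absurd h hq⟩
      choose Kq hKq hKq' using hq
      have hco := (mem_ER.1 hR).2.1
      choose A hA hAc hAU using hco
      refine ⟨{η} ∪ ⋃ n, ⋃ m, ⋃ q ∈ A n m, Kq q, ?_, fun _ _ => ?_⟩
      · refine (Set.countable_singleton η).union ?_
        exact Set.countable_iUnion fun n => Set.countable_iUnion fun m =>
          (hAc n m).biUnion fun q _ => hKq q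
      · rw [mem_ERK]
        refine ⟨hR, Or.inl rfl, fun n m => ⟨A n m, fun q hqA => ?_, hAc n m, hAU n m⟩⟩
        refine VK_mono ?_ η (hKq' q (hA n m hqA))
        intro x hx
        right
        simp only [Set.mem_iUnion]
        exact ⟨n, m, q, hqA, hx⟩
    choose KR hKR hKR' using h1
    refine ⟨supp r ∪ ⋃ η ∈ supp r, ⋃ R ∈ r.pr η, KR η R, ?_, ?_, hr.2, fun η hη => ?_⟩
    · have hfin : (supp r).Finite := r.fin
      refine hfin.countable.union (hfin.countable.biUnion fun η _ => ?_)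
      exact (Finset.countable_toSet (r.pr η)).biUnion fun R _ => hKR η R
    · intro η R hR
      have hηs : η ∈ supp r := Or.inr (Finset.nonempty_iff_ne_empty.1 ⟨R, hR⟩)
      refine oc_ERK_mono ?_ η (hKR' η R (oc_lt_of_pr hr.2 hR) (hr.1 η R hR))
      intro x hx
      right
      simp only [Set.mem_iUnion]
      exact ⟨η, hηs, R, hR, hx⟩
    · exact Or.inl (Or.inl hη)

theorem oc_mk_VK_step {κ : Cardinal.{u}} (hκ : ℵ₀ ≤ κ) {E K : Set I} (hK : #K ≤ κ) {τ : I}
    (h : ∀ ξ < τ, #(ERK E K ξ) ≤ κ) : #(VK E K τ) ≤ κ := by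
  classical
  set U : Set (Pr I) := ⋃ ξ : {x : K // (x : I) < τ}, ERK E K ξ.1.1 with hU
  have hUκ : #U ≤ κ := by
    rw [hU]
    refine (mk_iUnion_le _).trans ?_
    refine (mul_le_mul' ((mk_subtype_le _).trans hK)
      (ciSup_le' fun ξ : {x : K // (x : I) < τ} => h ξ.1.1 ξ.2)).trans ?_
    exact (mul_eq_self hκ).le
  -- code a condition by the finite set of its entries
  let code : VK E K τ → Finset (K × List ℕ × Finset U) := fun r =>
    (r.1.fin.toFinset.subtype (· ∈ K)).image fun η =>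
      (η, r.1.st η, (r.1.pr η).subtype (· ∈ U))
  have hmem : ∀ (r : VK E K τ) η, η ∈ supp r.1 → η < τ := by
    intro r η hη
    by_contra h'
    obtain ⟨h1, h2⟩ := r.2.2.1 η (not_lt.1 h')
    rcases hη with h | h
    · exact h h1
    · exact h h2
  have hinj : Function.Injective code := by
    intro r r' hrr
    have hall : ∀ (a b : VK E K τ), code a = code b → ∀ η ∈ supp a.1,
        η ∈ supp b.1 ∧ a.1.st η = b.1.st η ∧ a.1.pr η = b.1.pr η := by
      intro a b hab η hη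
      have hηK : η ∈ K := VK_supp a.2 hη
      have h1 : ((⟨η, hηK⟩ : K), a.1.st η, (a.1.pr η).subtype (· ∈ U)) ∈ code a :=
        Finset.mem_image.2 ⟨⟨η, hηK⟩,
          Finset.mem_subtype.2 ((Set.Finite.mem_toFinset _).2 hη), rfl⟩
      rw [hab] at h1
      obtain ⟨ζ, hζ, h2⟩ := Finset.mem_image.1 h1
      simp only [Prod.mk.injEq] at h2
      obtain ⟨h0, h3, h4⟩ := h2
      have h0' : (ζ : I) = η := congrArg Subtype.val h0
      rw [h0'] at h3 h4
      have hζ' : η ∈ supp b.1 := by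
        have h6 := (Set.Finite.mem_toFinset _).1 (Finset.mem_subtype.1 hζ)
        rw [h0'] at h6
        exact h6
      refine ⟨hζ', h3.symm, ?_⟩
      have hτ := hmem a η hη
      ext R
      have h5 := Finset.ext_iff.1 h4
      by_cases hR : R ∈ U
      · have := h5 ⟨R, hR⟩
        simpa using this.symm
      · constructor
        · intro h6
          exact absurd (Set.mem_iUnion.2 ⟨⟨⟨η, hηK⟩, hτ⟩, a.2.1 η R h6⟩) hR
        · intro h6
          exact absurd (Set.mem_iUnion.2 ⟨⟨⟨η, hηK⟩, hτ⟩, b.2.1 η R h6⟩) hR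
    apply Subtype.ext
    ext1 <;> funext η
    · by_cases h1 : η ∈ supp r.1
      · exact (hall r r' hrr η h1).2.1
      · by_cases h2 : η ∈ supp r'.1
        · exact (hall r' r hrr.symm η h2).2.1.symm
        · rw [(notMem_supp h1).1, (notMem_supp h2).1]
    · by_cases h1 : η ∈ supp r.1
      · exact (hall r r' hrr η h1).2.2
      · by_cases h2 : η ∈ supp r'.1
        · exact (hall r' r hrr.symm η h2).2.2.symm
        · rw [(notMem_supp h1).2, (notMem_supp h2).2]
  have hF : ∀ X : Type u, #X ≤ κ → #(Finset X) ≤ κ := by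
    intro X hX
    by_cases hfin : Finite X
    · exact (mk_le_aleph0 (α := Finset X)).trans hκ
    · rw [not_finite_iff_infinite] at hfin
      rw [mk_finset_of_infinite]
      exact hX
  refine (mk_le_of_injective hinj).trans (hF _ ?_)
  rw [mk_prod, mk_prod]
  simp only [lift_id, lift_uzero]
  have hL : lift.{u} #(List ℕ) ≤ κ := (lift_le_aleph0.2 mk_le_aleph0).trans hκ
  have h1 := mul_le_mul' hK (mul_le_mul' hL (hF _ hUκ))
  rw [mul_eq_self hκ, mul_eq_self hκ] at h1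
  exact h1

theorem oc_mk_COpen_le {κ : Cardinal.{u}} (hκ : ℵ₀ ≤ κ) (hpow : κ ^ ℵ₀ = κ) {B : Set (Rep I)}
    {ξ : I} (hB : #B ≤ κ) : #({R : Pr I | ∀ n m, COpen B ξ (R n m)} : Set (Pr I)) ≤ κ := by
  classical
  -- an admissible promise is determined by the countable sets
  let V : Type u := ℕ → ℕ → (ℕ → Option B)
  let val : V → Pr I := fun v n m => ⋃ (j : ℕ), ⋃ (q : B), ⋃ (_ : v n m j = some q), bs q.1 ξ
  have hsurj : ∀ R ∈ ({R : Pr I | ∀ n m, COpen B ξ (R n m)} : Set (Pr I)), ∃ v : V, val v = R := by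
    intro R hR
    have : ∀ n m, ∃ g : ℕ → Option B, ⋃ (j : ℕ), ⋃ (q : B), ⋃ (_ : g j = some q), bs q.1 ξ = R n m := by
      intro n m
      obtain ⟨A, hA, hAc, hU⟩ := hR n m
      have hAc' : Countable A := hAc
      by_cases hne : Nonempty A
      · obtain ⟨g, hg⟩ := exists_surjective_nat A
        refine ⟨fun j => some ⟨(g j).1, hA (g j).2⟩, ?_⟩
        rw [hU]
        ext w
        simp only [Set.mem_iUnion, Option.some.injEq]
        constructor
        · rintro ⟨j, q, rfl, hw⟩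
          exact ⟨_, (g j).2, hw⟩
        · rintro ⟨q, hq, hw⟩
          obtain ⟨j, hj⟩ := hg ⟨q, hq⟩
          exact ⟨j, ⟨q, hA hq⟩, by simp [hj], hw⟩
      · refine ⟨fun _ => none, ?_⟩
        rw [hU]
        ext w
        simp only [Set.mem_iUnion]
        constructor
        · rintro ⟨j, q, h, _⟩
          cases h
        · rintro ⟨q, hq, _⟩
          exact absurd ⟨⟨q, hq⟩⟩ hne
    choose g hg using this
    exact ⟨g, funext fun n => funext fun m => hg n m⟩
  have h1 : #({R : Pr I | ∀ n m, COpen B ξ (R n m)} : Set (Pr I)) ≤ #V := by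
    choose! v hv using hsurj
    refine mk_le_of_injective
      (f := fun R : ({R : Pr I | ∀ n m, COpen B ξ (R n m)} : Set (Pr I)) => v R.1) ?_
    intro R R' h
    apply Subtype.ext
    rw [← hv R.1 R.2, ← hv R'.1 R'.2]
    exact congrArg val h
  refine h1.trans ?_
  have hO : #(Option B) ≤ κ := by
    rw [mk_option]
    exact (add_le_add hB (one_le_aleph0.trans hκ)).trans (add_eq_self hκ).le
  have h2 : ∀ X : Type u, #X ≤ κ → #(ℕ → X) ≤ κ := by
    intro X hX
    have : #(ℕ → X) = #X ^ ℵ₀ := by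
      simp [mk_pi]
    rw [this]
    exact (power_le_power_right hX).trans hpow.le
  exact h2 _ (h2 _ (h2 _ hO))

theorem oc_mk_ERK_le {κ : Cardinal.{u}} (hκ : ℵ₀ ≤ κ) (hpow : κ ^ ℵ₀ = κ) {E K : Set I}
    (hK : #K ≤ κ) (ξ : I) : #(ERK E K ξ) ≤ κ := by
  induction ξ using WellFoundedLT.induction with
  | ind ξ IH =>
    refine (mk_le_mk_of_subset (t := {R : Pr I | ∀ n m, COpen (VK E K ξ) ξ (R n m)})
      fun R hR => (mem_ERK.1 hR).2.2).trans ?_
    exact oc_mk_COpen_le hκ hpow (oc_mk_VK_step hκ hK IH)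

theorem mk_VK_le {κ : Cardinal.{u}} (hκ : ℵ₀ ≤ κ) (hpow : κ ^ ℵ₀ = κ) {E K : Set I}
    (hK : #K ≤ κ) (ξ : I) : #(VK E K ξ) ≤ κ := by
  exact oc_mk_VK_step hκ hK fun ξ _ => oc_mk_ERK_le hκ hpow hK ξ

end Pool.Agent.Helper803.OD.OCount
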