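import Mathlib
import Pool.Agent.Helper803.OD.OFusion
import Pool.Agent.Helper803.OD.OSym
import Pool.Agent.Helper803.OD.OCount

/-!
# Uniform bounds for types, and an unused Cohen real hits
-/

namespace Pool.Agent.Helper803.OD.OHit

open Cardinal Pool.Agent.Helper803.OD.Iter Pool.Agent.Helper803.OD.Forcing
  Pool.Agent.Helper803.OD.OIter Pool.Agent.Helper803.OD.ODefs Pool.Agent.Helper803.OD.OSupp
  Pool.Agent.Helper803.OD.OSym Pool.Agent.Helper803.OD.OCount

set_option linter.unusedSectionVars false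

universe u

variable {J : Type u} [LinearOrder J] [WellFoundedLT J] {E : Set (WithTop J)}

/-- conditions whose part from `ξ` on lives on `F`, with given stems and few promises -/
def TyF (ξ : WithTop J) (F : Finset J) (st : J → List ℕ) (k : ℕ) (r : Cond E) : Prop :=
  ∀ η : J, ξ ≤ (η : WithTop J) → r.1.st η = st η ∧ (r.1.pr η).card ≤ k ∧
    (η ∉ F → r.1.st η = [] ∧ r.1.pr η = ∅)

open Classical in
theorem type_bound (hfus : Fusion E) (F : Finset J) : ∀ (st : J → List ℕ) (k : ℕ)
    (X : ℕ → Set (Cond E)), (∀ M, Down (X M)) → (∀ M M', M ≤ M' → X M ⊆ X M') →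
    (∀ p, ∃ q ≤ p, ∃ M, q ∈ X M) → ∀ (ξ : WithTop J) (u : Cond E), Below u.1 ξ →
    ∃ u' ≤ u, Below u'.1 ξ ∧ ∃ M, ∀ r : Cond E, TyF ξ F st k r → resP r ξ ≤ u' →
      ∃ r' ≤ r, r' ∈ X M := by
  induction F using Finset.induction_on_max with
  | empty =>
    intro st k X hXd hXm hX ξ u hu
    obtain ⟨q, hq, M, hqM⟩ := hX u
    refine ⟨resP q ξ, resP_le hq hu, below_resP q ξ, M, fun r hr hru => ?_⟩
    have hrb : Below r.1 ξ := by
      intro η hη
      induction η using WithTop.recTopCoe with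
      | top => exact r.2.2 ⊤ le_rfl
      | coe η => exact (hr η hη).2.2 (Finset.notMem_empty η)
    rw [resP_eq hrb] at hru
    exact ⟨glueP r q ξ, glueP_le_left hrb, hXd M q hqM _ (glueP_le hru)⟩
  | insert ζ F hF ih =>
    intro st k X hXd hXm hX ξ u hu
    by_cases hξ : ξ ≤ (ζ : WithTop J)
    swap
    · obtain ⟨u', h1, h2, M, h3⟩ := ih st k X hXd hXm hX ξ u hu
      refine ⟨u', h1, h2, M, fun r hr hru => h3 r (fun η hη => ?_) hru⟩
      obtain ⟨h4, h5, h6⟩ := hr η hη
      refine ⟨h4, h5, fun h7 => h6 ?_⟩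
      rw [Finset.mem_insert, not_or]
      refine ⟨?_, h7⟩
      rintro rfl
      exact hξ hη
    · obtain ⟨u', h1, h2, M, h3⟩ := ih (fun η => if η < ζ then st η else []) k
        (fun M => {p | ∀ r, TyOne ζ (st ζ) k r → resP r (ζ : WithTop J) ≤ resP p ζ →
          ∃ r' ≤ r, r' ∈ X M}) (fun M p hp q hq r hr hrq => hp r hr (hrq.trans (resP_mono hq _)))
        (fun M M' hM p hp r hr hrp => by
          obtain ⟨r', h4, h5⟩ := hp r hr hrp
          exact ⟨r', h4, hXm M M' hM h5⟩)
        (fun p => by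
          obtain ⟨u', h4, h5, M, h6⟩ := hfus ζ (st ζ) k X hXd hXm hX (resP p ζ) (below_resP p _)
          obtain ⟨s, h7, h8, _⟩ := exists_glue (q := u') (p := p) h4
          refine ⟨s, h7, M, fun r hr hrs => h6 r hr ?_⟩
          rwa [h8, resP_eq h5] at hrs) ξ u hu
      refine ⟨u', h1, h2, M, fun r hr hru => ?_⟩
      obtain ⟨r₁, h4, h5⟩ := h3 (resP r ζ) (by
        intro η hη
        obtain ⟨h6, h7, h8⟩ := hr η hη
        by_cases hlt : η < ζ
        · have hlt' : (η : WithTop J) < ζ := WithTop.coe_lt_coe.2 hlt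
          have e1 : (resP r (ζ : WithTop J)).1.st η = r.1.st η := res_st_lt hlt'
          have e2 : (resP r (ζ : WithTop J)).1.pr η = r.1.pr η := res_pr_lt hlt'
          rw [e1, e2]
          refine ⟨by simp [hlt, h6], h7, fun h9 => h8 ?_⟩
          rw [Finset.mem_insert, not_or]
          exact ⟨hlt.ne, h9⟩
        · have hge : (ζ : WithTop J) ≤ η := WithTop.coe_le_coe.2 (not_lt.1 hlt)
          have e1 : (resP r (ζ : WithTop J)).1.st η = [] := res_st_ge hge
          have e2 : (resP r (ζ : WithTop J)).1.pr η = ∅ := res_pr_ge hge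
          rw [e1, e2]
          simp [hlt]) (by rw [resP_resP r hξ]; exact hru)
      have h6 : resP r₁ (ζ : WithTop J) ≤ resP r ζ := by
        have := resP_mono h4 (ζ : WithTop J)
        rwa [resP_resP r le_rfl] at this
      have h7 : glueP (resP r₁ ζ) r (ζ : WithTop J) ≤ r := glueP_le h6
      obtain ⟨h8, h9, _⟩ := hr ζ hξ
      obtain ⟨r', h10, h11⟩ := h5 (glueP (resP r₁ ζ) r (ζ : WithTop J)) (by
        refine ⟨?_, ?_, fun η hη => ?_⟩
        · show (glue _ r.1 (ζ : WithTop J)).st ζ = _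
          rw [glue_st_ge le_rfl, h8]
        · show ((glue _ r.1 (ζ : WithTop J)).pr ζ).card ≤ k
          rw [glue_pr_ge le_rfl]; exact h9
        · show (glue _ r.1 (ζ : WithTop J)).st η = [] ∧ (glue _ r.1 (ζ : WithTop J)).pr η = ∅
          rw [glue_st_ge hη.le, glue_pr_ge hη.le]
          induction η using WithTop.recTopCoe with
          | top => exact r.2.2 ⊤ le_rfl
          | coe η =>
            refine (hr η (hξ.trans hη.le)).2.2 ?_
            rw [Finset.mem_insert, not_or]
            have hη' : ζ < η := WithTop.coe_lt_coe.1 hη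
            exact ⟨hη'.ne', fun h => absurd (hF η h) (not_lt.2 hη'.le)⟩)
        (by rw [resP_glueP, resP_resP r₁ le_rfl])
      exact ⟨r', h10.trans h7, h11⟩

/-! ### Invariance -/

theorem meets_act {P : Type u} [Preorder P] (Θ : P ≃o P) {N : Set P} (h : ∀ a ∈ N, Θ a = a)
    (p : P) : Θ p ∈ meets N ↔ p ∈ meets N := by
  constructor
  · intro hp q hq
    obtain ⟨r, hr, s, hs, hrs⟩ := hp (Θ q) (Θ.le_iff_le.2 hq)
    refine ⟨Θ.symm r, ?_, s, hs, ?_⟩
    · rw [← Θ.le_iff_le, Θ.apply_symm_apply]; exact hr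
    · rw [← Θ.le_iff_le, Θ.apply_symm_apply, h s hs]; exact hrs
  · intro hp q hq
    obtain ⟨r, hr, s, hs, hrs⟩ := hp (Θ.symm q) (by
      rw [← Θ.le_iff_le, Θ.apply_symm_apply]; exact hq)
    refine ⟨Θ r, ?_, s, hs, ?_⟩
    · have := Θ.le_iff_le.2 hr
      rwa [Θ.apply_symm_apply] at this
    · have := Θ.le_iff_le.2 hrs
      rwa [h s hs] at this

/-- exchanging the values `0` and `v` at the place `n` of the coordinate `c` -/
noncomputable def swapSym (E : Set (WithTop J)) (c : J) (hc : (c : WithTop J) ∉ E) (n v : ℕ) :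
    CSym E := by
  classical
  exact
  { π := 1
    τ := fun η i => if η = (c : WithTop J) ∧ i = n then Equiv.swap 0 v else 1
    fixE := fun _ _ => rfl
    τE := fun η hη i => by
      have : η ≠ (c : WithTop J) := fun h => hc (h ▸ hη)
      simp [this]
    cut := fun _ _ _ => Iff.rfl
    top := rfl }

theorem exists_swap (c : J) (hc : (c : WithTop J) ∉ E) (n v : ℕ) :
    ∃ Θ : Cond E ≃o Cond E,
      (∀ p η, η ≠ (c : WithTop J) → (Θ p).1.st η = p.1.st η) ∧
      (∀ p, (Θ p).1.st c = (p.1.st c).mapIdx fun i a => if i = n then Equiv.swap 0 v a else a) ∧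
      (∀ p η, ((Θ p).1.pr η).card = (p.1.pr η).card) ∧
      (∀ p ξ, Θ (resP p ξ) = resP (Θ p) ξ) ∧
      (∀ (K : Set (WithTop J)) (p : Cond E), p.1 ∈ VK E K ⊤ → (c : WithTop J) ∉ K → Θ p = p) := by
  classical
  obtain ⟨Θ, h1, h2, h3, h4, _⟩ := exists_act (swapSym E c hc n v)
  have hτ : ∀ η i, (swapSym E c hc n v).τ η i =
      if η = (c : WithTop J) ∧ i = n then Equiv.swap 0 v else 1 := fun _ _ => by
    simp only [swapSym]
  refine ⟨Θ, fun p η hη => ?_, fun p => ?_, fun p η => h2 p η, fun p ξ => h3 p ξ fun _ => Iff.rfl,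
    fun K p hp hK => h4 K p hp fun η hη => ⟨rfl, fun i => ?_⟩⟩
  · have := h1 p η
    change (Θ p).1.st η = _ at this
    rw [this]
    simp only [hτ, hη, false_and, if_false, Equiv.Perm.coe_one, id_eq]
    apply List.ext_getElem <;> simp
  · have := h1 p c
    change (Θ p).1.st c = _ at this
    rw [this]
    simp only [hτ, true_and]
    congr 1
    funext i a
    split_ifs <;> rfl
  · rw [hτ]
    have : η ≠ (c : WithTop J) := fun h => hK (h ▸ hη)
    simp [this]

/-- extending the stem at a Cohen coordinate -/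
noncomputable def pushC (s : Cond E) (c : J) (v : ℕ) : Cond E :=
  ⟨push s.1 c v, push_mem s.2 (WithTop.coe_lt_top c) v⟩

theorem pr_empty (s : Cond E) {c : WithTop J} (hc : c ∉ E) : s.1.pr c = ∅ := by
  rw [Finset.eq_empty_iff_forall_notMem]
  intro R hR
  exact hc (mem_ER.1 (s.2.1 _ R hR)).1

theorem pushC_le (s : Cond E) {c : J} (hc : (c : WithTop J) ∉ E) (v : ℕ) : pushC s c v ≤ s :=
  push_le fun R hR => by
    rw [pr_empty s hc] at hR
    exact absurd hR (Finset.notMem_empty R)

theorem resP_pushC (s : Cond E) {c : J} {ξ : WithTop J} (hξ : ξ ≤ (c : WithTop J)) (v : ℕ) :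
    resP (pushC s c v) ξ = resP s ξ := by
  apply Subtype.ext
  ext1 <;> funext η
  · show (res (push s.1 c v) ξ).st η = (res s.1 ξ).st η
    by_cases h : η < ξ
    · rw [res_st_lt h, res_st_lt h, push_st_ne _ _ (h.trans_le hξ).ne]
    · rw [res_st_ge (not_lt.1 h), res_st_ge (not_lt.1 h)]
  · show (res (push s.1 c v) ξ).pr η = (res s.1 ξ).pr η
    by_cases h : η < ξ
    · rw [res_pr_lt h, res_pr_lt h, push_pr]
    · rw [res_pr_ge (not_lt.1 h), res_pr_ge (not_lt.1 h)]

/-- An unused Cohen real hits every set almost containing an infinite set from the model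
below `ξ`. -/
theorem hit (hfus : Fusion E) {ξ : WithTop J} {c : J} (hξc : ξ ≤ (c : WithTop J))
    (hcE : (c : WithTop J) ∉ E) {B : ℕ → Set (Cond E)} (hB : ∀ z, Reg (B z))
    (hBloc : ∀ z, Loc ξ (B z)) {a : ℕ → Set (Cond E)}
    (ha : ∀ z, ∀ p ∈ a z, ∃ K : Set (WithTop J), p.1 ∈ VK E K ⊤ ∧ (c : WithTop J) ∉ K)
    {p₀ : Cond E} (hp₀ : Below p₀.1 ξ) (hinf : ∀ k, ∀ r ≤ p₀, ∃ s ≤ r, ∃ m, k ≤ m ∧ s ∈ B m)
    (hsub : ASub p₀ B fun z => meets (a z)) (s : Cond E) (hs : s ≤ p₀) :
    ∃ v, ∃ r ≤ pushC s c v, r ∈ meets (a v) := by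
  classical
  by_contra hcon
  push Not at hcon
  set n := (s.1.st (c : WithTop J)).length with hn
  choose Θ h1 h2 h3 h4 h5 using fun v => exists_swap (E := E) c hcE n v
  have hfix : ∀ v z, ∀ p ∈ a z, Θ v p = p := by
    intro v z p hp
    obtain ⟨K, hK, hcK⟩ := ha z p hp
    exact h5 v K p hK hcK
  -- the name of the place from which on the inclusion holds
  let X : ℕ → Set (Cond E) := fun M => {r | ¬ Compat r p₀ ∨
    ∀ m, M ≤ m → ∀ r' ≤ r, r' ∈ B m → r' ∈ meets (a m)}
  have hXd : ∀ M, Down (X M) := by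
    rintro M p (hp | hp) q hq
    · exact Or.inl fun ⟨x, hx1, hx2⟩ => hp ⟨x, hx1.trans hq, hx2⟩
    · exact Or.inr fun m hm r' hr' => hp m hm r' (hr'.trans hq)
  have hXm : ∀ M M', M ≤ M' → X M ⊆ X M' := by
    rintro M M' hM p (hp | hp)
    · exact Or.inl hp
    · exact Or.inr fun m hm => hp m (hM.trans hm)
  have hX : ∀ p, ∃ q ≤ p, ∃ M, q ∈ X M := by
    intro p
    by_cases hc : Compat p p₀
    · obtain ⟨x, hx1, hx2⟩ := hc
      obtain ⟨y, hy, k, hk⟩ := hsub x hx2
      exact ⟨y, hy.trans hx1, k, Or.inr fun m hm r' hr' hB' => hk m hm r' hr' hB'⟩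
    · exact ⟨p, le_rfl, 0, Or.inl hc⟩
  -- the type
  let st : J → List ℕ := fun η => if η = c then s.1.st c ++ [0] else s.1.st η
  let F : Finset J := (s.1.fin.preimage (f := ((↑) : J → WithTop J))
    WithTop.coe_injective.injOn).toFinset ∪ {c}
  obtain ⟨k, hk⟩ : ∃ k, ∀ η : J, (s.1.pr η).card ≤ k := by
    refine ⟨F.sup fun η => (s.1.pr η).card, fun η => ?_⟩
    by_cases hη : η ∈ F
    · exact Finset.le_sup (f := fun η : J => (s.1.pr η).card) hη
    · have : s.1.pr η = ∅ := by
        by_contra h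
        apply hη
        simp only [F, Finset.mem_union, Set.Finite.mem_toFinset, Set.mem_preimage]
        left; right; exact h
      rw [this]; simp
  obtain ⟨u', hu', hu'b, M, hM⟩ := type_bound hfus F st k X hXd hXm hX ξ (resP s ξ)
    (below_resP s ξ)
  obtain ⟨w, hw, v, hMv, hwB⟩ := hinf M u' (hu'.trans (resP_le hs hp₀))
  have hwB' : resP w ξ ∈ B v := (hBloc v w).1 hwB
  have hwu : resP w ξ ≤ u' := resP_le hw hu'b
  set y : Cond E := Θ v (pushC s c v) with hy
  have hyξ : resP y ξ = resP s ξ := by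
    rw [hy, ← h4 v, resP_pushC s hξc]
    obtain ⟨K, _, hK⟩ := exists_countable_support (resP s ξ).2
    refine h5 v _ _ (VK_below hK (below_resP s ξ)) fun h => ?_
    exact absurd h.2 (not_lt.2 hξc)
  have hyst : y.1.st (c : WithTop J) = s.1.st c ++ [0] := by
    rw [hy, h2 v]
    have : (pushC s c v).1.st (c : WithTop J) = s.1.st c ++ [v] := push_st_self _ _ _
    rw [this]
    apply List.ext_getElem
    · simp
    · intro i hi1 hi2
      simp only [List.getElem_mapIdx]
      by_cases hi : i < n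
      · rw [List.getElem_append_left (by omega), List.getElem_append_left (by omega),
          if_neg (by omega)]
      · have hi' : i = n := by simp at hi2; omega
        subst hi'
        rw [List.getElem_append_right (by omega), List.getElem_append_right (by omega)]
        simp
  obtain ⟨r, hr, hrX⟩ := hM (glueP (resP w ξ) y ξ) (by
    intro η hη
    have e1 : (glueP (resP w ξ) y ξ).1.st η = y.1.st η := glue_st_ge hη
    have e2 : (glueP (resP w ξ) y ξ).1.pr η = y.1.pr η := glue_pr_ge hη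
    rw [e1, e2]
    have e3 : (y.1.pr η).card = (s.1.pr η).card := h3 v _ _
    refine ⟨?_, by rw [e3]; exact hk η, fun hηF => ?_⟩
    · by_cases hηc : η = c
      · subst hηc
        rw [hyst]; simp [st]
      · have hηc' : (η : WithTop J) ≠ c := fun h => hηc (WithTop.coe_injective h)
        rw [hy, h1 v _ _ hηc']
        have : (pushC s c v).1.st (η : WithTop J) = s.1.st η := push_st_ne _ _ hηc'
        rw [this]; simp [st, hηc]
    · simp only [F, Finset.mem_union, Set.Finite.mem_toFinset, Set.mem_preimage,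
        Finset.mem_singleton, not_or] at hηF
      obtain ⟨h6, h7⟩ := hηF
      obtain ⟨h8, h9⟩ := notMem_supp (r := s.1) h6
      have hηc' : (η : WithTop J) ≠ c := fun h => h7 (WithTop.coe_injective h)
      constructor
      · rw [hy, h1 v _ _ hηc']
        have : (pushC s c v).1.st (η : WithTop J) = s.1.st η := push_st_ne _ _ hηc'
        rw [this, h8]
      · rw [← Finset.card_eq_zero, e3, h9, Finset.card_empty]) (by
    rw [resP_glueP, resP_resP w le_rfl]; exact hwu)
  have hg1 : glueP (resP w ξ) y ξ ≤ y := glueP_le (by rw [hyξ]; exact hwu.trans hu')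
  have hg2 : glueP (resP w ξ) y ξ ≤ resP w ξ := glueP_le_left (below_resP w ξ)
  have hrw : r ≤ resP w ξ := hr.trans hg2
  rcases hrX with h | h
  · exact h ⟨r, le_rfl, hrw.trans (hwu.trans (hu'.trans (resP_le hs hp₀)))⟩
  · have h6 : r ∈ meets (a v) := h v hMv r le_rfl ((hB v).1 _ hwB' r hrw)
    have h7 : (Θ v).symm r ≤ pushC s c v := by
      rw [← (Θ v).le_iff_le, (Θ v).apply_symm_apply]
      exact hr.trans hg1
    refine hcon v _ h7 ?_
    rw [← meets_act (Θ v) (hfix v v), (Θ v).apply_symm_apply]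
    exact h6

end Pool.Agent.Helper803.OD.OHit
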