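import Mathlib
import Pool.Agent.Helper803.OD.OIdx
import Pool.Agent.Helper803.OD.OSym
import Pool.Agent.Helper803.OD.OSupp

/-!
# Permuting the Cohen coordinates of all blocks
-/

namespace Pool.Agent.Helper803.OD.OPerm

open Cardinal Pool.Agent.Helper803.OD.Iter Pool.Agent.Helper803.OD.Forcing
  Pool.Agent.Helper803.OD.OIter Pool.Agent.Helper803.OD.ODefs Pool.Agent.Helper803.OD.OSupp
  Pool.Agent.Helper803.OD.OSym Pool.Agent.Helper803.OD.OIdx

set_option linter.unusedSectionVars false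

universe u

variable {K L : Type u} [LinearOrder K] [WellFoundedLT K] [LinearOrder L] [WellFoundedLT L]

/-- the permutation of the index set -/
def permIdx (ρ : Equiv.Perm L) : Equiv.Perm (Idx K L) where
  toFun x := toLex ((ofLex x).1, WithTop.map ρ (ofLex x).2)
  invFun x := toLex ((ofLex x).1, WithTop.map ρ.symm (ofLex x).2)
  left_inv x := by
    show toLex ((ofLex x).1, WithTop.map ρ.symm (WithTop.map ρ (ofLex x).2)) = x
    rw [WithTop.map_map]
    have : (ρ.symm ∘ ρ : L → L) = id := by funext l; simp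
    rw [this, WithTop.map_id]
    rfl
  right_inv x := by
    show toLex ((ofLex x).1, WithTop.map ρ (WithTop.map ρ.symm (ofLex x).2)) = x
    rw [WithTop.map_map]
    have : (ρ ∘ ρ.symm : L → L) = id := by funext l; simp
    rw [this, WithTop.map_id]
    rfl

/-- the permutation of the coordinates -/
def permTop (ρ : Equiv.Perm L) : Equiv.Perm (WithTop (Idx K L)) where
  toFun := WithTop.map (permIdx ρ)
  invFun := WithTop.map (permIdx ρ).symm
  left_inv x := by
    rw [WithTop.map_map]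
    have : ((permIdx ρ).symm ∘ permIdx ρ : Idx K L → Idx K L) = id := by funext l; simp
    rw [this, WithTop.map_id]
    rfl
  right_inv x := by
    rw [WithTop.map_map]
    have : (permIdx ρ ∘ (permIdx ρ).symm : Idx K L → Idx K L) = id := by funext l; simp
    rw [this, WithTop.map_id]
    rfl

theorem permTop_coe (ρ : Equiv.Perm L) (a : K) (y : WithTop L) :
    permTop ρ ((toLex (a, y) : Idx K L) : WithTop (Idx K L)) =
      ((toLex (a, WithTop.map ρ y) : Idx K L) : WithTop (Idx K L)) := rfl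

/-- the symmetry -/
def permSym (ρ : Equiv.Perm L) : CSym (EE K L) where
  π := permTop ρ
  τ _ _ := 1
  fixE := by
    rintro η ⟨a, rfl⟩
    rfl
  τE _ _ _ := rfl
  cut := by
    rintro η ⟨a, rfl⟩ ζ
    induction ζ using WithTop.recTopCoe with
    | top => exact Iff.rfl
    | coe x =>
      obtain ⟨⟨b, y⟩, rfl⟩ : ∃ z : K × WithTop L, x = toLex z := ⟨ofLex x, rfl⟩
      rw [permTop_coe, WithTop.coe_lt_coe, WithTop.coe_lt_coe, Prod.Lex.toLex_lt_toLex,
        Prod.Lex.toLex_lt_toLex]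
      have : WithTop.map ρ y < ⊤ ↔ y < ⊤ := by
        rw [lt_top_iff_ne_top, lt_top_iff_ne_top, Ne, Ne, WithTop.map_eq_top_iff]
      simp only [this]
  top := rfl

/-- a permutation of `L` acts on the iteration -/
theorem exists_perm (ρ : Equiv.Perm L) : ∃ Θ : Cond (EE K L) ≃o Cond (EE K L),
    (∀ (i : K) (S : Set L) (p : Cond (EE K L)), p.1 ∈ VK (EE K L) (NN i S) ⊤ →
      (∀ l ∈ S, ρ l = l) → Θ p = p) ∧
    (∀ (K₀ : Set (WithTop (Idx K L))) (i : K) (Y : Set L), K₀.Countable → K₀ ⊆ NN i Y →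
      ∃ K₁ : Set (WithTop (Idx K L)), K₁.Countable ∧ K₁ ⊆ NN i (ρ '' Y) ∧
        ∀ p : Cond (EE K L), p.1 ∈ VK (EE K L) K₀ ⊤ → (Θ p).1 ∈ VK (EE K L) K₁ ⊤) := by
  obtain ⟨Θ, -, -, -, h4, h5⟩ := exists_act (permSym (K := K) ρ)
  refine ⟨Θ, ?_, ?_⟩
  · intro i S p hp hS
    refine h4 (NN i S) p hp ?_
    rintro η ⟨a, -, y, rfl, hy⟩
    refine ⟨?_, fun _ => rfl⟩
    show permTop ρ _ = _
    rw [permTop_coe]
    rcases hy with rfl | ⟨l, hl, rfl⟩
    · rfl
    · rw [WithTop.map_coe, hS l hl]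
  · intro K₀ i Y hK₀ hsub
    refine ⟨(permTop ρ) '' K₀, hK₀.image _, ?_, fun p hp => h5 K₀ p hp⟩
    rintro _ ⟨η, hη, rfl⟩
    obtain ⟨a, ha, y, rfl, hy⟩ := hsub hη
    refine ⟨a, ha, WithTop.map ρ y, permTop_coe ρ a y, ?_⟩
    rcases hy with rfl | ⟨l, hl, rfl⟩
    · exact Or.inl rfl
    · exact Or.inr ⟨ρ l, ⟨l, hl, rfl⟩, rfl⟩

/-- countably many elements of `L` can be moved into `S ∪ L₀`, fixing `S` -/
theorem exists_rho {L : Type u} (S L₀ Y : Set L) (hS : Disjoint S L₀) (hL : ¬ L₀.Countable)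
    (hY : Y.Countable) : ∃ ρ : Equiv.Perm L, (∀ l ∈ S, ρ l = l) ∧ ρ '' Y ⊆ S ∪ L₀ := by
  classical
  set Y' : Set L := Y \ (S ∪ L₀) with hY'
  have hY'c : Y'.Countable := hY.mono Set.sdiff_subset
  have hinf : (L₀ \ Y).Infinite := by
    intro hfin
    apply hL
    refine (hY.union hfin.countable).mono ?_
    intro l hl
    by_cases h : l ∈ Y
    · exact Or.inl h
    · exact Or.inr ⟨hl, h⟩
  obtain ⟨f, hf⟩ := Set.countable_iff_exists_injOn.1 hY'c
  have hg : ∃ g : L → L, (∀ y ∈ Y', g y ∈ L₀ \ Y) ∧ Set.InjOn g Y' := by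
    refine ⟨fun y => (hinf.natEmbedding _ (f y) : L), fun y _ => (hinf.natEmbedding _ (f y)).2, ?_⟩
    intro y hy y' hy' h
    apply hf hy hy'
    exact (hinf.natEmbedding _).injective (Subtype.ext h)
  obtain ⟨g, hg1, hg2⟩ := hg
  set σ : L → L := fun x => if x ∈ Y' then g x else if h : ∃ y ∈ Y', g y = x then h.choose else x
    with hσ
  have s1 : ∀ x ∈ Y', σ x = g x := fun x hx => if_pos hx
  have s2 : ∀ x ∈ Y', σ (g x) = x := by
    intro x hx
    have hn : g x ∉ Y' := fun h => h.2 (Or.inr (hg1 x hx).1)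
    have he : ∃ y ∈ Y', g y = g x := ⟨x, hx, rfl⟩
    show (if g x ∈ Y' then g (g x) else if h : ∃ y ∈ Y', g y = g x then h.choose else g x) = x
    rw [if_neg hn, dif_pos he]
    exact hg2 he.choose_spec.1 hx he.choose_spec.2
  have s3 : ∀ x, x ∉ Y' → (¬ ∃ y ∈ Y', g y = x) → σ x = x := by
    intro x h1 h2
    show (if x ∈ Y' then g x else if h : ∃ y ∈ Y', g y = x then h.choose else x) = x
    rw [if_neg h1, dif_neg h2]
  have hinv : Function.Involutive σ := by
    intro x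
    by_cases h1 : x ∈ Y'
    · rw [s1 x h1, s2 x h1]
    · by_cases h2 : ∃ y ∈ Y', g y = x
      · obtain ⟨y, hy, rfl⟩ := h2
        rw [s2 y hy, s1 y hy]
      · rw [s3 x h1 h2, s3 x h1 h2]
  refine ⟨hinv.toPerm, ?_, ?_⟩
  · intro l hl
    show σ l = l
    apply s3
    · intro h
      exact h.2 (Or.inl hl)
    · rintro ⟨y, hy, rfl⟩
      exact Set.disjoint_left.1 hS hl (hg1 y hy).1
  · rintro _ ⟨y, hy, rfl⟩
    show σ y ∈ S ∪ L₀
    by_cases h1 : y ∈ Y'
    · rw [s1 y h1]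
      exact Or.inr (hg1 y h1).1
    · have h2 : y ∈ S ∪ L₀ := by
        by_contra h
        exact h1 ⟨hy, h⟩
      rw [s3 y h1]
      · exact h2
      · rintro ⟨y', hy', rfl⟩
        exact (hg1 y' hy').2 hy

end Pool.Agent.Helper803.OD.OPerm
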