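import Mathlib
import Pool.Agent.Helper803.OD.ODefs

namespace Pool.Agent.Helper803.OD.OTower1

open Cardinal Pool.Agent.Helper803.OD.Iter Pool.Agent.Helper803.OD.Forcing
  Pool.Agent.Helper803.OD.OIter Pool.Agent.Helper803.OD.ODefs

set_option linter.unusedSectionVars false

universe u

variable {J : Type u} [LinearOrder J] [WellFoundedLT J] {E : Set (WithTop J)}

/-- one class of a countable partition is cofinal -/
theorem exists_cofinal_class {C : Type u} [LinearOrder C] [Nonempty C]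
    (hC : ∀ S : Set C, S.Countable → ∃ b, ∀ s ∈ S, s < b) {ι : Type*} [Countable ι] (g : C → ι) :
    ∃ i, ∀ b, ∃ ν, b ≤ ν ∧ g ν = i := by
  by_contra hcon
  push Not at hcon
  choose b hb using hcon
  obtain ⟨c, hc⟩ := hC (Set.range b) (Set.countable_range b)
  exact hb (g c) c (hc _ ⟨_, rfl⟩).le rfl

/-- cofinally many of the conditions `f ν` are in the generic filter, below some condition -/
theorem exists_often {C : Type u} [LinearOrder C] [Nonempty C]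
    (hC : ∀ S : Set C, S.Countable → ∃ b, ∀ s ∈ S, s < b) {ξ : WithTop J} {b₀ : Cond E}
    (hb₀ : Below b₀.1 ξ) (f : C → Cond E) (C' : Set C) (hC' : ∀ b, ∃ ν ∈ C', b ≤ ν)
    (hf : ∀ ν ∈ C', f ν ≤ b₀) (hfξ : ∀ ν ∈ C', Below (f ν).1 ξ) :
    ∃ q ≤ b₀, Below q.1 ξ ∧ ∀ r ≤ q, ∀ β, ∃ ν ∈ C', β ≤ ν ∧ Compat r (f ν) := by
  classical
  by_contra hcon
  push Not at hcon
  have hD : ∀ p : Cond E, Below p.1 ξ → ∃ q ≤ p,
      q ∈ {q : Cond E | Below q.1 ξ ∧ (¬ Compat q b₀ ∨ ∃ β, ∀ ν ∈ C', β ≤ ν → ¬ Compat q (f ν))} := by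
    intro p hp
    by_cases h : Compat p b₀
    · obtain ⟨s, h1, h2⟩ := h
      obtain ⟨r, hr, β, hβ⟩ := hcon (resP s ξ) (resP_le h2 hb₀) (below_resP s ξ)
      refine ⟨resP r ξ, (resP_mono hr ξ).trans ?_, below_resP r ξ, Or.inr ⟨β, fun ν hν hβν hc => ?_⟩⟩
      · rw [resP_resP s le_rfl]; exact resP_le h1 hp
      · obtain ⟨s', h3, h4⟩ := hc
        obtain ⟨t, h5, h6, _⟩ := compat_res (q := f ν) (p := r) (hfξ ν hν) ⟨s', h4, h3⟩
        exact hβ ν hν hβν ⟨t, h6, h5⟩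
    · exact ⟨p, le_rfl, hp, Or.inl h⟩
  obtain ⟨A, hA, hAc, hAp, _⟩ := exists_antichain_below ξ _ (fun q hq => hq.1) hD
  have : ∀ a : Cond E, ∃ β : C, a ∈ A → Compat a b₀ → ∀ ν ∈ C', β ≤ ν → ¬ Compat a (f ν) := by
    intro a
    by_cases h : a ∈ A ∧ Compat a b₀
    · rcases (hA h.1).2 with h1 | ⟨β, hβ⟩
      · exact absurd h.2 h1
      · exact ⟨β, fun _ _ => hβ⟩
    · exact ⟨Classical.arbitrary C, fun h1 h2 => absurd ⟨h1, h2⟩ h⟩
  choose β hβ using this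
  obtain ⟨c, hc⟩ := hC (β '' A) (hAc.image β)
  obtain ⟨ν, hν, hcν⟩ := hC' c
  obtain ⟨a, ha, s, hs1, hs2⟩ := hAp (f ν)
  exact hβ a ha ⟨s, hs1, hs2.trans (hf ν hν)⟩ ν hν ((hc _ ⟨a, ha, rfl⟩).le.trans hcν) ⟨s, hs1, hs2⟩

theorem loc_iff' {ξ : WithTop J} {φ : Set (Cond E)} (h : Loc ξ φ) {p q : Cond E}
    (e : resP p ξ = resP q ξ) : p ∈ φ ↔ q ∈ φ := by
  rw [h p, h q, e]

/-- a bound from `S` for the support of a condition below `η` -/
theorem exists_top_bound {η ξ₀ : WithTop J} (hη : ξ₀ < η) {S : Set (WithTop J)}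
    (hS : ∀ x < η, ∃ s ∈ S, x ≤ s) {q : Cond E} (hq : Below q.1 η) :
    ∃ s ∈ S, ξ₀ ≤ s ∧ ∀ x, s < x → q.1.st x = [] ∧ q.1.pr x = ∅ := by
  have hfin : (insert ξ₀ (supp q.1)).Finite := (show (supp q.1).Finite from q.1.fin).insert ξ₀
  obtain ⟨m, hm, hmη, hmax⟩ := exists_max_lt hfin η ⟨ξ₀, Set.mem_insert _ _, hη⟩
  obtain ⟨s, hs, hms⟩ := hS m hmη
  refine ⟨s, hs, (hmax ξ₀ (Set.mem_insert _ _) hη).trans hms, fun x hx => ?_⟩
  by_cases hxη : η ≤ x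
  · exact hq x hxη
  · refine notMem_supp fun h => ?_
    exact absurd ((hmax x (Set.mem_insert_of_mem _ h) (not_le.1 hxη)).trans hms) (not_le.2 hx)

theorem step_B (hfus : Fusion E) {C : Type u} [LinearOrder C] [Nonempty C]
    (hC : ∀ S : Set C, S.Countable → ∃ b, ∀ s ∈ S, s < b) {ξ₀ : WithTop J}
    (T : C → ℕ → Set (Cond E)) (hTloc : ∀ ν z, Loc ξ₀ (T ν z))
    {b₀ : Cond E} (hb₀ : Below b₀.1 ξ₀) (hT : ∀ ν ν', ν < ν' → ASub b₀ (T ν') (T ν))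
    {η : WithTop J} (hη : ξ₀ < η) (S : Set (WithTop J)) (hSc : S.Countable)
    (hSη : ∀ s ∈ S, s < η) (hS : ∀ x < η, ∃ s ∈ S, x ≤ s)
    {q : Cond E} (hq : q ≤ b₀) (hqη : Below q.1 η) {H : ℕ → ℕ → Set (Cond E)} (hH : FName H)
    (hHl : ∀ m y, Loc η (H m y)) (hBd : ∀ ν, ABd q H (T ν)) :
    ∃ ζ < η, ∃ q' ≤ b₀, Below q'.1 ζ ∧ ∃ H' : ℕ → ℕ → Set (Cond E), FName H' ∧
      (∀ m y, Loc ζ (H' m y)) ∧ ∀ ν, ABd q' H' (T ν) := by
  classical
  have h0 : ∀ ν, ∃ s ≤ q, ∃ k, Bd s H (T ν) k := fun ν => hBd ν q le_rfl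
  choose s hs k hk using h0
  have hqν : ∀ ν, resP (s ν) η ≤ q := fun ν => resP_le (hs ν) hqη
  have hBq : ∀ ν, Bd (resP (s ν) η) H (T ν) (k ν) := by
    intro ν m hm y r hr hrH
    obtain ⟨s', h1, h2, h3⟩ := exists_glue (q := r) (p := s ν) (ξ := η) hr
    obtain ⟨r', h4, z, h5, h6, h7⟩ := hk ν m hm y s' h1 ((loc_iff' (hHl m y) h2).2 hrH)
    obtain ⟨t, h8, h9, _⟩ := exists_glue (q := r') (p := r) (ξ := η) (h4.trans h3)
    exact ⟨t, h8, z, h5, h6, (loc_iff' ((hTloc ν z).mono hη.le) h9).2 h7⟩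
  have h1 : ∀ ν, ∃ z ∈ S, ξ₀ ≤ z ∧ ∀ x, z < x →
      (resP (s ν) η).1.st x = [] ∧ (resP (s ν) η).1.pr x = ∅ :=
    fun ν => exists_top_bound hη hS (below_resP (s ν) η)
  choose zt hztS hzt0 hzt using h1
  have : Countable S := hSc.to_subtype
  obtain ⟨⟨⟨ζ', hζ'⟩, kk, t, w⟩, hi⟩ := exists_cofinal_class hC
    (fun ν => ((⟨zt ν, hztS ν⟩ : S), k ν, (resP (s ν) η).1.st (zt ν),
      ((resP (s ν) η).1.pr (zt ν)).card))
  obtain ⟨j, rfl⟩ := WithTop.ne_top_iff_exists.1 (ne_top_of_lt (hSη ζ' hζ'))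
  have hcl : ∀ ν, ((⟨zt ν, hztS ν⟩ : S), k ν, (resP (s ν) η).1.st (zt ν),
      ((resP (s ν) η).1.pr (zt ν)).card) = ((⟨(j : WithTop J), hζ'⟩ : S), kk, t, w) →
      zt ν = j ∧ k ν = kk ∧ TyOne j t w (resP (s ν) η) := by
    intro ν h
    simp only [Prod.mk.injEq, Subtype.mk.injEq] at h
    obtain ⟨h2, h3, h4, h5⟩ := h
    rw [h2] at h4 h5
    refine ⟨h2, h3, h4, h5.le, fun x hx => hzt ν x (by rw [h2]; exact hx)⟩
  have hξj : ξ₀ ≤ (j : WithTop J) := by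
    obtain ⟨ν, _, hν⟩ := hi (Classical.arbitrary C)
    rw [← (hcl ν hν).1]
    exact hzt0 ν
  let C' : Set C := {ν | zt ν = j ∧ k ν = kk ∧ TyOne j t w (resP (s ν) η)}
  have hC' : ∀ b, ∃ ν ∈ C', b ≤ ν := by
    intro b
    obtain ⟨ν, h2, h3⟩ := hi b
    exact ⟨ν, hcl ν h3, h2⟩
  have hb₀j : Below b₀.1 (j : WithTop J) := hb₀.mono hξj
  obtain ⟨q1, hq1, hq1j, hoft⟩ := exists_often hC (ξ := (j : WithTop J)) hb₀j
    (fun ν => resP (resP (s ν) η) j) C' hC' (fun ν _ => resP_le ((hqν ν).trans hq) hb₀j)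
    (fun ν _ => below_resP _ _)
  refine ⟨j, hSη _ hζ', q1, hq1, hq1j,
    fun m y => {p | ∀ r, TyOne j t w r → resP r j ≤ resP p j → ∃ r' ≤ r, r' ∈ H m y},
    ⟨?_, ?_, ?_⟩, ?_, ?_⟩
  · intro m y p hp q' hq' r hr hrq
    exact hp r hr (hrq.trans (resP_mono hq' _))
  · intro m y y' hyy p hp r hr hrq
    obtain ⟨r', h2, h3⟩ := hp r hr hrq
    exact ⟨r', h2, hH.mono m y y' hyy h3⟩
  · intro m p
    obtain ⟨u', h2, h3, M, hM⟩ := hfus j t w (H m) (hH.down m) (hH.mono m) (hH.dense m)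
      (resP p j) (below_resP p _)
    obtain ⟨v, h4, h5, _⟩ := exists_glue (q := u') (p := p) (ξ := (j : WithTop J)) h2
    refine ⟨v, h4, M, fun r hr h => hM r hr (h.trans ?_)⟩
    rw [h5, resP_eq h3]
  · intro m y p
    show (∀ r, TyOne j t w r → resP r j ≤ resP p j → ∃ r' ≤ r, r' ∈ H m y) ↔
      (∀ r, TyOne j t w r → resP r j ≤ resP (resP p j) j → ∃ r' ≤ r, r' ∈ H m y)
    rw [resP_resP p le_rfl]
  · intro ν₀ r hr
    obtain ⟨b, hb⟩ := hC {ν₀} (Set.countable_singleton ν₀)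
    obtain ⟨ν, hνC, hbν, r1, h1, h2⟩ := hoft r hr b
    have hlt : ν₀ < ν := (hb ν₀ (Set.mem_singleton _)).trans_le hbν
    have hBd1 : Bd r1 (fun m y => {p | ∀ r, TyOne j t w r → resP r j ≤ resP p j →
        ∃ r' ≤ r, r' ∈ H m y}) (T ν) (k ν) := by
      intro m hm y r2 hr2 hr2H
      have h3 : glueP r2 (resP (s ν) η) j ≤ resP (s ν) η := glueP_le (hr2.trans h2)
      obtain ⟨hty1, hty2, hty3⟩ := hνC.2.2
      have hty : TyOne j t w (glueP r2 (resP (s ν) η) j) := by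
        refine ⟨?_, ?_, fun x hx => ?_⟩
        · rw [← hty1]; exact glue_st_ge le_rfl
        · have : (glueP r2 (resP (s ν) η) j).1.pr (j : WithTop J) =
              (resP (s ν) η).1.pr (j : WithTop J) := glue_pr_ge le_rfl
          rw [this]; exact hty2
        · have e1 : (glueP r2 (resP (s ν) η) j).1.st x = (resP (s ν) η).1.st x :=
            glue_st_ge hx.le
          have e2 : (glueP r2 (resP (s ν) η) j).1.pr x = (resP (s ν) η).1.pr x :=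
            glue_pr_ge hx.le
          rw [e1, e2]
          exact hty3 x hx
      have h4 : resP (glueP r2 (resP (s ν) η) j) j = resP r2 j := resP_glueP _ _ _
      obtain ⟨r4, h5, h6⟩ := hr2H _ hty h4.le
      obtain ⟨r5, h7, z, h8, h9, h10⟩ := hBq ν m hm y r4 (h5.trans h3) h6
      obtain ⟨v, h11, h12, _⟩ := exists_glue (q := r5) (p := r2) (ξ := (j : WithTop J))
        (((h7.trans h5).trans (le_resP _ _)).trans h4.le)
      exact ⟨v, h11, z, h8, h9, (loc_iff' ((hTloc ν z).mono hξj) h12).2 h10⟩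
    obtain ⟨v, h3, k', h4⟩ := hT ν₀ ν hlt r1 ((h1.trans hr).trans hq1)
    exact ⟨v, h3.trans h1, _, (hBd1.mono h3 le_rfl).of_sub h4⟩

theorem step_A {C : Type u} {ξ₀ : WithTop J} (T : C → ℕ → Set (Cond E))
    {b₀ : Cond E} {η : WithTop J} (hη : ξ₀ < η)
    (hA : ∀ S : Set (WithTop J), S.Countable → (∀ s ∈ S, s < η) → ∃ x < η, ∀ s ∈ S, s < x)
    {q : Cond E} (hq : q ≤ b₀) (hqη : Below q.1 η) {H : ℕ → ℕ → Set (Cond E)} (hH : FName H)
    (hHl : ∀ m y, Loc η (H m y)) (hBd : ∀ ν, ABd q H (T ν)) :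
    ∃ ζ < η, ∃ q' ≤ b₀, Below q'.1 ζ ∧ ∃ H' : ℕ → ℕ → Set (Cond E), FName H' ∧
      (∀ m y, Loc ζ (H' m y)) ∧ ∀ ν, ABd q' H' (T ν) := by
  classical
  have h0 : ∀ m : ℕ, ∃ A ⊆ {p : Cond E | Below p.1 η ∧ ∃ y, p ∈ H m y}, A.Countable ∧
      (∀ p, ∃ a ∈ A, Compat a p) ∧ ∀ a ∈ A, ∀ b ∈ A, Compat a b → a = b := by
    intro m
    refine exists_antichain_below η _ (fun q hq => hq.1) fun p hp => ?_
    obtain ⟨q', h1, y, h2⟩ := hH.dense m p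
    exact ⟨resP q' η, resP_le h1 hp, below_resP q' η, y, (hHl m y q').1 h2⟩
  choose A hAD hAc hAp _ using h0
  have h1 : ∀ (m : ℕ) (a : Cond E), ∃ y, a ∈ A m → a ∈ H m y := by
    intro m a
    by_cases h : a ∈ A m
    · obtain ⟨y, hy⟩ := (hAD m h).2
      exact ⟨y, fun _ => hy⟩
    · exact ⟨0, fun h' => absurd h' h⟩
  choose ya hya using h1
  have hsup : ∀ a : Cond E, Below a.1 η → ∀ x ∈ supp a.1, x < η := by
    intro a ha x hx
    by_contra hcon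
    obtain ⟨h2, h3⟩ := ha x (not_lt.1 hcon)
    rcases hx with h | h
    · exact h h2
    · exact h h3
  obtain ⟨ζ, hζη, hζ⟩ := hA (supp q.1 ∪ ⋃ m, ⋃ a ∈ A m, supp a.1) (by
      refine Set.Countable.union (show (supp q.1).Finite from q.1.fin).countable ?_
      refine Set.countable_iUnion fun m => ?_
      exact (hAc m).biUnion fun a _ => (show (supp a.1).Finite from a.1.fin).countable) (by
      rintro x (hx | hx)
      · exact hsup q hqη x hx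
      · simp only [Set.mem_iUnion] at hx
        obtain ⟨m, a, ha, hx⟩ := hx
        exact hsup a (hAD m ha).1 x hx)
  have hbel : ∀ a : Cond E, (∀ x ∈ supp a.1, x < ζ) → Below a.1 ζ := by
    intro a ha x hx
    exact notMem_supp fun h => absurd (ha x h) (not_lt.2 hx)
  refine ⟨ζ, hζη, q, hq, hbel q fun x hx => hζ x (Or.inl hx),
    fun m y => meets {a | a ∈ A m ∧ ya m a ≤ y}, ⟨fun m y => down_meets _, ?_, ?_⟩, ?_, ?_⟩
  · intro m y y' hyy p hp q' hq'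
    obtain ⟨r, hr, s, hs, hrs⟩ := hp q' hq'
    exact ⟨r, hr, s, ⟨hs.1, hs.2.trans hyy⟩, hrs⟩
  · intro m p
    obtain ⟨a, ha, s, h1, h2⟩ := hAp m p
    exact ⟨s, h2, ya m a, meets_of_le (s := a) ⟨ha, le_rfl⟩ h1⟩
  · intro m y
    refine loc_meets fun a ha => hbel a fun x hx => hζ x (Or.inr ?_)
    simp only [Set.mem_iUnion]
    exact ⟨m, a, ha.1, hx⟩
  · intro ν r hr
    obtain ⟨s, hs, k, hk⟩ := hBd ν r hr
    refine ⟨s, hs, k, fun m hm y r1 hr1 hr1H => ?_⟩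
    obtain ⟨r2, hr2, a, ⟨ha, hay⟩, hra⟩ := hr1H r1 le_rfl
    have h2 : r2 ∈ H m y := hH.mono m _ _ hay (hH.down m _ a (hya m a ha) r2 hra)
    obtain ⟨r', h3, z, h4, h5, h6⟩ := hk m hm y r2 (hr2.trans hr1) h2
    exact ⟨r', h3.trans hr2, z, h4, h5, h6⟩

/-- a function bounding a decreasing sequence of length `ω₁` of names below `ξ₀` can be found
below `ξ₀` -/
theorem tower_bound (hfus : Fusion E) {C : Type u} [LinearOrder C] [Nonempty C]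
    (hC : ∀ S : Set C, S.Countable → ∃ b, ∀ s ∈ S, s < b) {ξ₀ : WithTop J}
    (T : C → ℕ → Set (Cond E)) (hTreg : ∀ ν z, Reg (T ν z)) (hTloc : ∀ ν z, Loc ξ₀ (T ν z))
    {b₀ : Cond E} (hb₀ : Below b₀.1 ξ₀) (hT : ∀ ν ν', ν < ν' → ASub b₀ (T ν') (T ν))
    {u : Cond E} (hu : u ≤ b₀) {H : ℕ → ℕ → Set (Cond E)} (hH : FName H)
    (hBd : ∀ ν, ABd u H (T ν)) :
    ∃ q ≤ b₀, Below q.1 ξ₀ ∧ ∃ H' : ℕ → ℕ → Set (Cond E), FName H' ∧
      (∀ m y, Loc ξ₀ (H' m y)) ∧ ∀ ν, ABd q H' (T ν) := by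
  classical
  let P : Set (WithTop J) := {η | ∃ q ≤ b₀, Below q.1 η ∧ ∃ H' : ℕ → ℕ → Set (Cond E),
    FName H' ∧ (∀ m y, Loc η (H' m y)) ∧ ∀ ν, ABd q H' (T ν)}
  have hP : P.Nonempty := ⟨⊤, u, hu, u.2.2, H, hH, fun m y => loc_top _, hBd⟩
  obtain ⟨η, ⟨q, hq, hqη, H', hH', hHl, hBd'⟩, hmin⟩ :=
    (wellFounded_lt (α := WithTop J)).has_min P hP
  rcases le_or_gt η ξ₀ with hle | hlt
  · exact ⟨q, hq, hqη.mono hle, H', hH', fun m y => (hHl m y).mono hle, hBd'⟩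
  · exfalso
    by_cases hB : ∃ S : Set (WithTop J), S.Countable ∧ (∀ s ∈ S, s < η) ∧
        ∀ x < η, ∃ s ∈ S, x ≤ s
    · obtain ⟨S, hSc, hSη, hS⟩ := hB
      obtain ⟨ζ, hζ, h⟩ := step_B hfus hC T hTloc hb₀ hT hlt S hSc hSη hS hq hqη hH' hHl hBd'
      exact hmin ζ h hζ
    · have hA : ∀ S : Set (WithTop J), S.Countable → (∀ s ∈ S, s < η) →
          ∃ x < η, ∀ s ∈ S, s < x := by
        intro S hSc hSη
        by_contra hcon
        push Not at hcon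
        exact hB ⟨S, hSc, hSη, hcon⟩
      obtain ⟨ζ, hζ, h⟩ := step_A (b₀ := b₀) T hlt hA hq hqη hH' hHl hBd'
      exact hmin ζ h hζ

end Pool.Agent.Helper803.OD.OTower1
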