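import Mathlib
import Pool.Agent.Helper803.OD.OCode
import Pool.Agent.Helper803.OD.OHit
import Pool.Agent.Helper803.OD.OPerm
import Pool.Agent.Helper803.OD.OChain
import Pool.Agent.Helper803.OD.OTower1
import Pool.Agent.Helper803.OD.OTower2

/-!
# Every member of the family almost contains an infinite set from an intermediate model
-/

namespace Pool.Agent.Helper803.OD.OCase

open Cardinal Pool.Agent.Helper803.OD.Iter Pool.Agent.Helper803.OD.Forcing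
  Pool.Agent.Helper803.OD.OIter Pool.Agent.Helper803.OD.ODefs Pool.Agent.Helper803.OD.OSupp
  Pool.Agent.Helper803.OD.OIdx Pool.Agent.Helper803.OD.OCode

set_option linter.unusedSectionVars false

universe u

section
variable {P : Type u} [Preorder P]

/-- `p` forces that `X` is infinite -/
def Inf (p : P) (X : ℕ → Set P) : Prop := ∀ k, ∀ r ≤ p, ∃ s ≤ r, ∃ m, k ≤ m ∧ s ∈ X m

theorem Inf.mono {p q : P} {X : ℕ → Set P} (h : Inf p X) (hq : q ≤ p) : Inf q X :=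
  fun k r hr => h k r (hr.trans hq)

/-- `p` forces that the family has an infinite pseudointersection -/
def PI {K : Type u} (T : K → ℕ → Set P) (p : P) : Prop :=
  ∃ X : ℕ → Set P, (∀ z, Reg (X z)) ∧ Inf p X ∧ ∀ i, ASub p X (T i)

/-- `p` forces that the family of the enumerations is bounded -/
def BDD {K : Type u} (T : K → ℕ → Set P) (p : P) : Prop :=
  ∃ H : ℕ → ℕ → Set P, FName H ∧ ∀ i, ABd p H (T i)

theorem asub_of_dense {p : P} {X Y : ℕ → Set P} (h : ∀ r ≤ p, ∃ s ≤ r, ASub s X Y) :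
    ASub p X Y := by
  intro r hr
  obtain ⟨s, hs, h1⟩ := h r hr
  obtain ⟨t, ht, k, hk⟩ := h1 s le_rfl
  exact ⟨t, ht.trans hs, k, hk⟩

theorem asub_trans {p : P} {X Y Z : ℕ → Set P} (h : ASub p X Y) (h' : ASub p Y Z) :
    ASub p X Z := by
  intro r hr
  obtain ⟨s, hs, k, hk⟩ := h r hr
  obtain ⟨t, ht, l, hl⟩ := h' s (hs.trans hr)
  refine ⟨t, ht.trans hs, max k l, fun m hm x hx hxX => ?_⟩
  exact hl m ((le_max_right _ _).trans hm) x hx
    (hk m ((le_max_left _ _).trans hm) x (hx.trans ht) hxX)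

theorem abd_of_sub {p : P} {H : ℕ → ℕ → Set P} {X Y : ℕ → Set P} (h : ABd p H X)
    (h' : ASub p X Y) : ABd p H Y := by
  intro r hr
  obtain ⟨s, hs, k, hk⟩ := h r hr
  obtain ⟨t, ht, l, hl⟩ := h' s (hs.trans hr)
  exact ⟨t, ht.trans hs, _, (hk.mono ht le_rfl).of_sub hl⟩

theorem inf_of_bd {p : P} {H : ℕ → ℕ → Set P} (hH : FName H) {X : ℕ → Set P} {k : ℕ}
    (h : Bd p H X k) : Inf p X := by
  intro l r hr
  obtain ⟨s, hs, y, hy⟩ := hH.dense (max k l) r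
  obtain ⟨t, ht, z, h1, _, h3⟩ := h (max k l) (le_max_left _ _) y s (hs.trans hr) hy
  exact ⟨t, ht.trans hs, z, (le_max_right _ _).trans h1, h3⟩

theorem inf_act (Θ : P ≃o P) {X X' : ℕ → Set P} (hX : ∀ z p, Θ p ∈ X' z ↔ p ∈ X z) {p : P}
    (h : Inf p X) : Inf (Θ p) X' := by
  intro k r hr
  obtain ⟨s, hs, m, hm, hsm⟩ := h k (Θ.symm r) (by
    rw [← Θ.le_iff_le, Θ.apply_symm_apply]; exact hr)
  refine ⟨Θ s, ?_, m, hm, (hX m s).2 hsm⟩
  have := Θ.le_iff_le.2 hs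
  rwa [Θ.apply_symm_apply] at this

end

variable {K L : Type u} [LinearOrder K] [WellFoundedLT K] [LinearOrder L] [WellFoundedLT L]

/-- the hereditary supports of countably many conditions below `ξ` -/
theorem exists_supp {δ : K} {ξ : WithTop (Idx K L)}
    (hcut : ∀ a y, ((toLex (a, y) : Idx K L) : WithTop (Idx K L)) < ξ ↔ a < δ)
    {N : Set (Cond (EE K L))} (hN : N.Countable) (hb : ∀ p ∈ N, Below p.1 ξ) :
    ∃ (Kc : Set (WithTop (Idx K L))) (Y : Set L), Kc.Countable ∧ Y.Countable ∧ Kc ⊆ NN δ Y ∧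
      ∀ p ∈ N, p.1 ∈ VK (EE K L) Kc ⊤ := by
  classical
  choose Kp hKp hKp' using fun p : Cond (EE K L) => OCount.exists_countable_support p.2
  set Kc : Set (WithTop (Idx K L)) := (⋃ p ∈ N, (Kp p ∩ Set.Iio ξ)) \ {⊤} with hKc
  have hKcc : Kc.Countable :=
    (hN.biUnion fun p _ => (hKp p).mono Set.inter_subset_left).mono Set.sdiff_subset
  have hltop : ∀ x : WithTop (Idx K L), x ∈ Kc → ∃ (a : K) (y : WithTop L), a < δ ∧
      x = ((toLex (a, y) : Idx K L) : WithTop (Idx K L)) := by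
    rintro x ⟨hx, hxt⟩
    simp only [Set.mem_iUnion] at hx
    obtain ⟨p, _, _, hx⟩ := hx
    induction x using WithTop.recTopCoe with
    | top => exact absurd rfl hxt
    | coe x =>
      obtain ⟨⟨a, y⟩, rfl⟩ : ∃ z : K × WithTop L, x = toLex z := ⟨ofLex x, rfl⟩
      exact ⟨a, y, (hcut a y).1 hx, rfl⟩
  refine ⟨Kc, ⋃ x ∈ Kc, {l | ∃ a : K, x = ((toLex (a, (l : WithTop L)) : Idx K L) :
    WithTop (Idx K L))}, hKcc, ?_, ?_, ?_⟩
  · refine hKcc.biUnion fun x _ => Set.Subsingleton.countable ?_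
    rintro l ⟨a, ha⟩ l' ⟨a', ha'⟩
    rw [ha] at ha'
    have h1 := toLex.injective (WithTop.coe_injective ha')
    have h2 := (Prod.mk.injEq _ _ _ _ ▸ h1 : a = a' ∧ (l : WithTop L) = l').2
    exact WithTop.coe_injective h2
  · intro x hx
    obtain ⟨a, y, ha, rfl⟩ := hltop x hx
    refine ⟨a, ha, y, rfl, ?_⟩
    induction y using WithTop.recTopCoe with
    | top => exact Or.inl rfl
    | coe l =>
      right
      exact ⟨l, Set.mem_biUnion hx ⟨a, rfl⟩, rfl⟩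
  · intro p hp
    have h1 := OCount.VK_below (hKp' p) (hb p hp)
    have h2 := OCount.VK_below (ξ := ⊤) h1 p.2.2
    refine OCount.VK_mono ?_ ⊤ h2
    rintro x ⟨hx1, hx2⟩
    exact ⟨Set.mem_biUnion hp hx1, fun h => by
      rw [Set.mem_singleton_iff] at h
      rw [h] at hx2
      exact lt_irrefl (⊤ : WithTop (Idx K L)) (Set.mem_Iio.1 hx2)⟩

theorem NN_mono {i i' : K} {S S' : Set L} (h : i ≤ i') (h' : S ⊆ S') : NN i S ⊆ NN i' S' := by
  rintro x ⟨a, ha, y, rfl, hy⟩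
  refine ⟨a, ha.trans_le h, y, rfl, ?_⟩
  rcases hy with hy | ⟨l, hl, rfl⟩
  · exact Or.inl hy
  · exact Or.inr ⟨l, h' hl, rfl⟩

/-- The situation: `T` is a family of regular names indexed by `K`, which `pst` forces to
be a chain of infinite sets; `δ` is a point of cofinality `ω₁` closed under everything. -/
structure Setting {C : Type u} [LinearOrder C] (δ : K) (ξ : WithTop (Idx K L)) (S L₀ : Set L)
    (pst : Cond (EE K L)) (T : K → ℕ → Set (Cond (EE K L))) (f : C → K)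
    (A : Set (Cond (EE K L))) (D : C → Set (Cond (EE K L))) : Prop where
  cut : ∀ a y, ((toLex (a, y) : Idx K L) : WithTop (Idx K L)) < ξ ↔ a < δ
  reg : ∀ i z, Reg (T i z)
  inf : ∀ i, Inf pst (T i)
  lin : ∀ i i', ∀ r ≤ pst, ∃ s ≤ r, ASub s (T i) (T i') ∨ ASub s (T i') (T i)
  loc : ∀ i < δ, ∀ z, Loc ξ (T i z)
  fix : ∀ Θ : Cond (EE K L) ≃o Cond (EE K L),
    (∀ p : Cond (EE K L), p.1 ∈ VK (EE K L) (NN δ S) ⊤ → Θ p = p) →
    ∀ i < δ, ∀ z p, Θ p ∈ T i z ↔ p ∈ T i z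
  f_lt : ∀ ν, f ν < δ
  f_cof : ∀ i < δ, ∃ ν, i < f ν
  C_cof : ∀ S : Set C, S.Countable → ∃ b, ∀ s ∈ S, s < b
  A_pre : ∀ r, ∃ p ∈ A, Compat p r
  A_below : ∀ p ∈ A, Below p.1 ξ
  A_fix : ∀ p ∈ A, p.1 ∈ VK (EE K L) (NN δ S) ⊤
  A_spec : ∀ p ∈ A, (∃ X : ℕ → Set (Cond (EE K L)), (∀ z, Reg (X z)) ∧ (∀ z, Loc ξ (X z)) ∧
      Inf p X ∧ ∀ i, ASub p X (T i)) ∨
    ((∀ q ≤ p, ¬ PI T q) ∧ ((∃ H : ℕ → ℕ → Set (Cond (EE K L)), FName H ∧
      (∀ m y, Loc ξ (H m y)) ∧ ∀ i, ABd p H (T i)) ∨ ∀ q ≤ p, ¬ BDD T q))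
  D_pre : ∀ ν r, ∃ d ∈ D ν, Compat d r
  D_anti : ∀ ν, ∀ d ∈ D ν, ∀ d' ∈ D ν, Compat d d' → d = d'
  D_below : ∀ ν, ∀ d ∈ D ν, Below d.1 ξ
  D_spec : ∀ ν, ∀ d ∈ D ν, (∃ i', i' < δ ∧ (∀ ν', ν < ν' → i' < f ν') ∧
      ∀ i'', i'' < f ν → ASub d (T i') (T i'')) ∨
    ∀ q ≤ d, ¬ ∃ i', ∀ i'', i'' < f ν → ASub q (T i') (T i'')
  clos : ∀ Kc : Set (WithTop (Idx K L)), Kc.Countable → Kc ⊆ NN δ (S ∪ L₀) →
    ∀ q : Cond (EE K L), q.1 ∈ VK (EE K L) Kc ⊤ → ∀ x : ℕ → ℕ → Set (Cond (EE K L)),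
    (∀ m y, (x m y).Countable) → (∀ m y, ∀ p ∈ x m y, p.1 ∈ VK (EE K L) Kc ⊤) →
    ((∀ i' < δ, ASub q (fun z => meets (x z 0)) (T i')) →
      ∀ i', ASub q (fun z => meets (x z 0)) (T i')) ∧
    ((∀ i' < δ, ABd q (fun m y => meets (x m y)) (T i')) →
      ∀ i', ABd q (fun m y => meets (x m y)) (T i'))
  disj : Disjoint S L₀
  unc : ¬ L₀.Countable

variable {C : Type u} [LinearOrder C] {δ : K} {ξ : WithTop (Idx K L)} {S L₀ : Set L}
  {pst : Cond (EE K L)} {T : K → ℕ → Set (Cond (EE K L))} {f : C → K}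
  {A : Set (Cond (EE K L))} {D : C → Set (Cond (EE K L))}

/-- moving the supports of countably many conditions below `ξ` into `NN δ (S ∪ L₀)` -/
theorem exists_move (h : Setting δ ξ S L₀ pst T f A D) {N : Set (Cond (EE K L))}
    (hN : N.Countable) (hb : ∀ p ∈ N, Below p.1 ξ) :
    ∃ Θ : Cond (EE K L) ≃o Cond (EE K L),
      (∀ p : Cond (EE K L), p.1 ∈ VK (EE K L) (NN δ S) ⊤ → Θ p = p) ∧
      ∃ Kc : Set (WithTop (Idx K L)), Kc.Countable ∧ Kc ⊆ NN δ (S ∪ L₀) ∧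
        ∀ p ∈ N, (Θ p).1 ∈ VK (EE K L) Kc ⊤ := by
  obtain ⟨Kc, Y, h1, h2, h3, h4⟩ := exists_supp h.cut hN hb
  obtain ⟨ρ, hρ1, hρ2⟩ := OPerm.exists_rho S L₀ Y h.disj h.unc h2
  obtain ⟨Θ, hΘ1, hΘ2⟩ := OPerm.exists_perm (K := K) ρ
  obtain ⟨K₁, h5, h6, h7⟩ := hΘ2 Kc δ Y h1 h3
  exact ⟨Θ, fun p hp => hΘ1 δ S p hp hρ1, K₁, h5, h6.trans (NN_mono le_rfl hρ2),
    fun p hp => h7 p (h4 p hp)⟩

theorem no_PI (h : Setting δ ξ S L₀ pst T f A D) {p : Cond (EE K L)} (hp : p ∈ A)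
    (hno : ∀ q ≤ p, ¬ PI T q) {q : Cond (EE K L)} (hqp : q ≤ p) (hq : Below q.1 ξ)
    {X : ℕ → Set (Cond (EE K L))} (hX : ∀ z, Reg (X z)) (hXloc : ∀ z, Loc ξ (X z))
    (hinf : Inf q X) (hsub : ∀ i < δ, ASub q X (T i)) : False := by
  choose x hxc hxb hx using fun z => exists_code (hX z) (hXloc z)
  obtain ⟨Θ, hΘ, Kc, hKc, hKc', hN⟩ := exists_move h (N := {q} ∪ ⋃ z, x z)
    ((Set.countable_singleton q).union (Set.countable_iUnion hxc)) (by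
      rintro r (rfl | hr)
      · exact hq
      · obtain ⟨z, hz⟩ := Set.mem_iUnion.1 hr
        exact hxb z r hz)
  have hX' : ∀ z r, Θ r ∈ meets (Θ '' x z) ↔ r ∈ X z := fun z r => by
    rw [meets_image, hx z]
  have h1 := (h.clos Kc hKc hKc' (Θ q) (hN q (Or.inl rfl)) (fun z _ => Θ '' x z)
    (fun z _ => (hxc z).image _) (by
      rintro z _ _ ⟨r, hr, rfl⟩
      exact hN r (Or.inr (Set.mem_iUnion.2 ⟨z, hr⟩)))).1
    (fun i' hi' => asub_act Θ hX' (h.fix Θ hΘ i' hi') (hsub i' hi'))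
  refine hno (Θ q) ?_ ⟨fun z => meets (Θ '' x z), fun z => reg_meets _, inf_act Θ hX' hinf, h1⟩
  have := Θ.le_iff_le.2 hqp
  rwa [hΘ p (h.A_fix p hp)] at this

theorem no_BDD (h : Setting δ ξ S L₀ pst T f A D) {p : Cond (EE K L)} (hp : p ∈ A)
    (hno : ∀ q ≤ p, ¬ BDD T q) {q : Cond (EE K L)} (hqp : q ≤ p) (hq : Below q.1 ξ)
    {H : ℕ → ℕ → Set (Cond (EE K L))} (hH : FName H) (hloc : ∀ m y, Loc ξ (H m y))
    (hsub : ∀ i < δ, ABd q H (T i)) : False := by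
  obtain ⟨x, hxc, hxb, hxF, hx⟩ := exists_fcode hH hloc
  obtain ⟨Θ, hΘ, Kc, hKc, hKc', hN⟩ := exists_move h (N := {q} ∪ ⋃ m, ⋃ y, x m y)
    ((Set.countable_singleton q).union
      (Set.countable_iUnion fun m => Set.countable_iUnion fun y => hxc m y)) (by
      rintro r (rfl | hr)
      · exact hq
      · simp only [Set.mem_iUnion] at hr
        obtain ⟨m, y, hr⟩ := hr
        exact hxb m y r hr)
  have hX' : ∀ m y r, Θ r ∈ meets (Θ '' x m y) ↔ r ∈ meets (x m y) := fun m y r =>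
    meets_image Θ (x m y) r
  have h1 := (h.clos Kc hKc hKc' (Θ q) (hN q (Or.inl rfl)) (fun m y => Θ '' x m y)
    (fun m y => (hxc m y).image _) (by
      rintro m y _ ⟨r, hr, rfl⟩
      exact hN r (Or.inr (by simp only [Set.mem_iUnion]; exact ⟨m, y, hr⟩)))).2
    (fun i' hi' => abd_act Θ (H := fun m y => meets (x m y)) hX' (h.fix Θ hΘ i' hi')
      (hx q _ (hsub i' hi')))
  refine hno (Θ q) ?_ ⟨fun m y => meets (Θ '' x m y),
    fname_act Θ (H := fun m y => meets (x m y)) hX' hxF, h1⟩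
  have := Θ.le_iff_le.2 hqp
  rwa [hΘ p (h.A_fix p hp)] at this

/-! ### The tower -/

/-- `i'` is a lower bound of the members before `f ν` -/
def LBp (δ : K) (T : K → ℕ → Set (Cond (EE K L))) (f : C → K) (ν : C) (d : Cond (EE K L)) :
    Prop :=
  ∃ i', i' < δ ∧ (∀ ν', ν < ν' → i' < f ν') ∧ ∀ i'', i'' < f ν → ASub d (T i') (T i'')

open Classical in
/-- the lower bound -/
noncomputable def ip (δ : K) (T : K → ℕ → Set (Cond (EE K L))) (f : C → K) (ν : C)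
    (d : Cond (EE K L)) : K :=
  if h : LBp δ T f ν d then h.choose else δ

theorem ip_spec {ν : C} {d : Cond (EE K L)} (h : LBp δ T f ν d) : ip δ T f ν d < δ ∧
    (∀ ν', ν < ν' → ip δ T f ν d < f ν') ∧
    ∀ i'', i'' < f ν → ASub d (T (ip δ T f ν d)) (T i'') := by
  rw [ip, dif_pos h]
  exact h.choose_spec

/-- the tower in the intermediate model -/
def TT (δ : K) (ξ : WithTop (Idx K L)) (T : K → ℕ → Set (Cond (EE K L))) (f : C → K)
    (D : C → Set (Cond (EE K L))) (ν : C) (z : ℕ) : Set (Cond (EE K L)) :=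
  meets {r | Below r.1 ξ ∧ ∃ d ∈ D ν, LBp δ T f ν d ∧ r ≤ d ∧ r ∈ T (ip δ T f ν d) z}

theorem reg_TT (ν : C) (z : ℕ) : Reg (TT δ ξ T f D ν z) := reg_meets _

theorem loc_TT (ν : C) (z : ℕ) : Loc ξ (TT δ ξ T f D ν z) := loc_meets fun _ hp => hp.1

theorem mem_TT (h : Setting δ ξ S L₀ pst T f A D) {ν : C} {d : Cond (EE K L)} (hd : d ∈ D ν)
    (hLB : LBp δ T f ν d) {r : Cond (EE K L)} (hr : r ≤ d) (z : ℕ) :
    r ∈ TT δ ξ T f D ν z ↔ r ∈ T (ip δ T f ν d) z := by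
  constructor
  · intro hr'
    refine (h.reg _ z).2 r fun q hq => ?_
    obtain ⟨t, ht, x, ⟨_, d', hd', _, hxd', hx⟩, htx⟩ := hr' q hq
    have : d' = d := h.D_anti ν d' hd' d hd ⟨t, htx.trans hxd', ht.trans (hq.trans hr)⟩
    subst this
    exact ⟨t, ht, (h.reg _ z).1 x hx t htx⟩
  · intro hr'
    have h1 := (h.loc _ (ip_spec hLB).1 z r).1 hr'
    exact meets_of_le ⟨below_resP r ξ, d, hd, hLB, resP_le hr (h.D_below ν d hd), h1⟩ (le_resP r ξ)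

section
variable {i : K} {u' s : Cond (EE K L)}

theorem claimK (h : Setting δ ξ S L₀ pst T f A D) (hs : ∀ i' < δ, ASub s (T i) (T i')) (ν : C)
    {r : Cond (EE K L)} (hr : r ≤ resP s ξ) : ∃ t ≤ r, ∃ d ∈ D ν, LBp δ T f ν d ∧ t ≤ d := by
  obtain ⟨d, hd, t, htd, htr⟩ := h.D_pre ν r
  refine ⟨t, htr, d, hd, ?_, htd⟩
  rcases h.D_spec ν d hd with h1 | h1
  · exact h1
  · exfalso
    obtain ⟨w, hw1, _, hw3⟩ := exists_glue (q := t) (p := s) (htr.trans hr)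
    exact h1 w (hw3.trans (resP_le htd (h.D_below ν d hd)))
      ⟨i, fun i'' hi'' => (hs i'' (hi''.trans (h.f_lt ν))).mono hw1⟩

theorem tt_desc (h : Setting δ ξ S L₀ pst T f A D) (hs : ∀ i' < δ, ASub s (T i) (T i'))
    {ν ν' : C} (hν : ν < ν') :
    ASub (resP s ξ) (TT δ ξ T f D ν') (TT δ ξ T f D ν) := by
  intro r hr
  obtain ⟨t₁, ht₁, d', hd', hLB', htd'⟩ := claimK h hs ν' hr
  obtain ⟨t₂, ht₂, d, hd, hLB, htd⟩ := claimK h hs ν (ht₁.trans hr)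
  have h1 := (ip_spec hLB').2.2 _ ((ip_spec hLB).2.1 ν' hν)
  obtain ⟨x, hx, k, hk⟩ := h1 t₂ (ht₂.trans htd')
  refine ⟨x, hx.trans (ht₂.trans ht₁), k, fun m hm y hy hyT => ?_⟩
  rw [mem_TT h hd' hLB' ((hy.trans hx).trans (ht₂.trans htd'))] at hyT
  rw [mem_TT h hd hLB ((hy.trans hx).trans htd)]
  exact hk m hm y hy hyT

theorem tt_sub (h : Setting δ ξ S L₀ pst T f A D) (hs : ∀ i' < δ, ASub s (T i) (T i'))
    (ν : C) : ASub s (T i) (TT δ ξ T f D ν) := by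
  intro r hr
  obtain ⟨t, ht, d, hd, hLB, htd⟩ := claimK h hs ν (hr.trans (le_resP s ξ))
  obtain ⟨x, hx, k, hk⟩ := hs _ (ip_spec hLB).1 t (ht.trans hr)
  refine ⟨x, hx.trans ht, k, fun m hm y hy hyT => ?_⟩
  rw [mem_TT h hd hLB ((hy.trans hx).trans htd)]
  exact hk m hm y hy hyT

theorem tt_below (h : Setting δ ξ S L₀ pst T f A D) (hs : ∀ i' < δ, ASub s (T i) (T i'))
    (ν : C) {i'' : K} (hi : i'' < f ν) : ASub (resP s ξ) (TT δ ξ T f D ν) (T i'') := by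
  intro r hr
  obtain ⟨t, ht, d, hd, hLB, htd⟩ := claimK h hs ν hr
  obtain ⟨x, hx, k, hk⟩ := (ip_spec hLB).2.2 i'' hi t htd
  refine ⟨x, hx.trans ht, k, fun m hm y hy hyT => ?_⟩
  rw [mem_TT h hd hLB ((hy.trans hx).trans htd)] at hyT
  exact hk m hm y hy hyT

end

theorem caseII (hfus : Fusion (EE K L)) (h : Setting δ ξ S L₀ pst T f A D) {i : K}
    {u u' : Cond (EE K L)} (hu : u ≤ pst) (hub : Below u.1 ξ) (hu' : u' ≤ u)
    (hsub : ∀ i' < δ, ASub u' (T i) (T i')) :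
    ∃ p₀ ≤ u, Below p₀.1 ξ ∧ ∃ B : ℕ → Set (Cond (EE K L)), (∀ z, Reg (B z)) ∧
      (∀ z, Loc ξ (B z)) ∧ Inf p₀ B ∧ ASub p₀ B (T i) := by
  classical
  obtain ⟨ν₀, _⟩ := h.C_cof ∅ Set.countable_empty
  have hne : Nonempty C := ⟨ν₀⟩
  obtain ⟨p, hp, u'', hup, huu⟩ := h.A_pre u'
  rcases h.A_spec p hp with ⟨X, h1, h2, h3, h4⟩ | ⟨hno, hH⟩
  · have h5 : resP u'' ξ ≤ p := resP_le hup (h.A_below p hp)
    exact ⟨resP u'' ξ, resP_le (huu.trans hu') hub, below_resP u'' ξ, X, h1, h2,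
      h3.mono h5, (h4 i).mono h5⟩
  · exfalso
    rcases hH with ⟨H, hH1, hH2, hH3⟩ | hno'
    · obtain ⟨s, hs, k₀, hk₀⟩ := hH3 i u'' hup
      have hs' : ∀ i' < δ, ASub s (T i) (T i') := fun i' hi' =>
        (hsub i' hi').mono (hs.trans huu)
      obtain ⟨q, hq, hqb, X', hX1, hX2, ⟨k, hk⟩, hX3⟩ := OTower2.tower_pseudo h.C_cof
        (ξ₀ := ξ) (TT δ ξ T f D) (fun ν z => reg_TT ν z) (fun ν z => loc_TT ν z)
        (b₀ := resP s ξ) (below_resP s ξ) (fun ν ν' hν => tt_desc h hs' hν) hH1 hH2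
        (u := s) (le_resP s ξ) (X := T i) (h.reg i) hk₀ (fun ν => tt_sub h hs' ν)
      refine no_PI h hp hno (q := q) (hq.trans (resP_le (hs.trans hup) (h.A_below p hp))) hqb
        hX1 hX2 (inf_of_bd hH1 hk) fun i' hi' => ?_
      obtain ⟨ν, hν⟩ := h.f_cof i' hi'
      exact asub_trans (hX3 ν) ((tt_below h hs' ν hν).mono hq)
    · have hs' : ∀ i' < δ, ASub u'' (T i) (T i') := fun i' hi' => (hsub i' hi').mono huu
      let H : ℕ → ℕ → Set (Cond (EE K L)) := fun m y =>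
        {x | (∃ z, m ≤ z ∧ z ≤ y ∧ x ∈ T i z) ∨ ¬ Compat x u''}
      have hHF : FName H := by
        refine ⟨fun m y p hp q hq => ?_, fun m y y' hy p hp => ?_, fun m p => ?_⟩
        · rcases hp with ⟨z, h1, h2, h3⟩ | hp
          · exact Or.inl ⟨z, h1, h2, (h.reg i z).1 p h3 q hq⟩
          · exact Or.inr fun ⟨x, hx1, hx2⟩ => hp ⟨x, hx1.trans hq, hx2⟩
        · rcases hp with ⟨z, h1, h2, h3⟩ | hp
          · exact Or.inl ⟨z, h1, h2.trans hy, h3⟩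
          · exact Or.inr hp
        · by_cases hc : Compat p u''
          · obtain ⟨x, hx1, hx2⟩ := hc
            obtain ⟨y, hy, z, hz, hyz⟩ := h.inf i m x (hx2.trans (huu.trans (hu'.trans hu)))
            exact ⟨y, hy.trans hx1, z, Or.inl ⟨z, hz, le_rfl, hyz⟩⟩
          · exact ⟨p, le_rfl, 0, Or.inr hc⟩
      have hBd : Bd u'' H (T i) 0 := by
        intro m _ y r hr hrH
        rcases hrH with ⟨z, h1, h2, h3⟩ | hp
        · exact ⟨r, le_rfl, z, h1, h2, h3⟩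
        · exact absurd ⟨r, le_rfl, hr⟩ hp
      have hABd : ABd u'' H (T i) := fun r hr => ⟨r, le_rfl, 0, hBd.mono hr le_rfl⟩
      obtain ⟨q, hq, hqb, H', hH1, hH2, hH3⟩ := OTower1.tower_bound hfus h.C_cof
        (ξ₀ := ξ) (TT δ ξ T f D) (fun ν z => reg_TT ν z) (fun ν z => loc_TT ν z)
        (b₀ := resP u'' ξ) (below_resP u'' ξ) (fun ν ν' hν => tt_desc h hs' hν)
        (u := u'') (le_resP u'' ξ) hHF (fun ν => abd_of_sub hABd (tt_sub h hs' ν))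
      refine no_BDD h hp hno' (q := q) (hq.trans (resP_le hup (h.A_below p hp))) hqb
        hH1 hH2 fun i' hi' => ?_
      obtain ⟨ν, hν⟩ := h.f_cof i' hi'
      exact abd_of_sub (hH3 ν) ((tt_below h hs' ν hν).mono hq)

theorem caseI (h : Setting δ ξ S L₀ pst T f A D) {i : K}
    {u : Cond (EE K L)} (hu : u ≤ pst)
    (hsub : ∀ u' ≤ u, ∃ u'' ≤ u', ∃ i' < δ, ASub u'' (T i') (T i)) :
    ∃ B : ℕ → Set (Cond (EE K L)), (∀ z, Reg (B z)) ∧
      (∀ z, Loc ξ (B z)) ∧ Inf u B ∧ ASub u B (T i) := by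
  classical
  obtain ⟨A', hA', hAc, hAp, _⟩ := exists_antichain
    {p : Cond (EE K L) | ¬ Compat p u ∨ ∃ i' < δ, ASub p (T i') (T i)} (by
      intro p
      by_cases hc : Compat p u
      · obtain ⟨x, hx1, hx2⟩ := hc
        obtain ⟨y, hy, h1⟩ := hsub x hx2
        exact ⟨y, hy.trans hx1, Or.inr h1⟩
      · exact ⟨p, le_rfl, Or.inl hc⟩)
  obtain ⟨ν₀, _⟩ := h.C_cof ∅ Set.countable_empty
  have hex : ∀ p : Cond (EE K L), ∃ i' < δ, (p ∈ A' → Compat p u → ASub p (T i') (T i)) := by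
    intro p
    by_cases hp : p ∈ A'
    · rcases hA' hp with h1 | ⟨i', h1, h2⟩
      · exact ⟨f ν₀, h.f_lt ν₀, fun _ h2 => absurd h2 h1⟩
      · exact ⟨i', h1, fun _ _ => h2⟩
    · exact ⟨f ν₀, h.f_lt ν₀, fun h1 => absurd h1 hp⟩
  choose g hg1 hg2 using hex
  obtain ⟨a₀, ha₀, _⟩ := hAp u
  have : Nonempty A' := ⟨⟨a₀, ha₀⟩⟩
  have hc : Countable A' := hAc
  obtain ⟨e, he⟩ := exists_surjective_nat A'
  obtain ⟨B, hB1, hB2, hB3, hB4⟩ := OChain.chain_pseudo (ξ := ξ) (fun l z => T (g (e l).1) z)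
    (fun l z => h.reg _ z) (fun l z => h.loc _ (hg1 _) z) (u := u)
    (fun l k r hr => h.inf _ k r (hr.trans hu)) (fun l l' r hr => h.lin _ _ r (hr.trans hu))
  refine ⟨B, hB1, hB2, hB3, asub_of_dense fun r hr => ?_⟩
  obtain ⟨a, ha, s, hsa, hsr⟩ := hAp r
  obtain ⟨l, hl⟩ := he ⟨a, ha⟩
  refine ⟨s, hsr, asub_trans ((hB4 l).mono (hsr.trans hr)) ?_⟩
  rw [hl]
  exact (hg2 a ha ⟨s, hsa, hsr.trans hr⟩).mono hsa

theorem main (hfus : Fusion (EE K L)) (h : Setting δ ξ S L₀ pst T f A D) (i : K)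
    {u : Cond (EE K L)} (hu : u ≤ pst) (hub : Below u.1 ξ) :
    ∃ p₀ ≤ u, Below p₀.1 ξ ∧ ∃ B : ℕ → Set (Cond (EE K L)), (∀ z, Reg (B z)) ∧
      (∀ z, Loc ξ (B z)) ∧ Inf p₀ B ∧ ASub p₀ B (T i) := by
  by_cases hc : ∀ u' ≤ u, ∃ u'' ≤ u', ∃ i' < δ, ASub u'' (T i') (T i)
  · exact ⟨u, le_rfl, hub, caseI h hu hc⟩
  · push Not at hc
    obtain ⟨u', hu', hc⟩ := hc
    refine caseII hfus h hu hub hu' fun i' hi' => asub_of_dense fun r hr => ?_
    obtain ⟨s, hs, h1 | h1⟩ := h.lin i i' r (hr.trans (hu'.trans hu))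
    · exact ⟨s, hs, h1⟩
    · exact absurd h1 (hc s (hs.trans hr) i' hi')

end Pool.Agent.Helper803.OD.OCase
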