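import Mathlib
import Pool.Agent.Helper803.OD.OCase

/-!
# Points of cofinality `ω₁` closed under everything
-/

namespace Pool.Agent.Helper803.OD.OClose

open Cardinal Ordinal Pool.Agent.Helper803.OD.Iter Pool.Agent.Helper803.OD.Forcing
  Pool.Agent.Helper803.OD.OIter Pool.Agent.Helper803.OD.ODefs Pool.Agent.Helper803.OD.OSupp
  Pool.Agent.Helper803.OD.OIdx Pool.Agent.Helper803.OD.OCode Pool.Agent.Helper803.OD.OCase

set_option linter.unusedSectionVars false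

/-! ### Small sets -/

theorem mk_union_small {α : Type} {μ : Cardinal.{0}} (hμ : ℵ₀ ≤ μ) {S T : Set α} (hS : #S ≤ μ)
    (hT : #T ≤ μ) : #(S ∪ T : Set α) ≤ μ :=
  (mk_union_le S T).trans ((add_le_add hS hT).trans (add_eq_self hμ).le)

theorem mk_iUnion_small {α ι : Type} {μ : Cardinal.{0}} (hμ : ℵ₀ ≤ μ) (hι : #ι ≤ μ)
    {S : ι → Set α} (hS : ∀ i, #(S i) ≤ μ) : #(⋃ i, S i) ≤ μ := by
  refine (mk_iUnion_le_sum_mk).trans ?_
  refine (sum_le_sum _ (fun _ => μ) hS).trans ?_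
  rw [sum_const']
  exact (mul_le_mul' hι le_rfl).trans (mul_eq_self hμ).le

theorem mk_biUnion_small {α ι : Type} {μ : Cardinal.{0}} (hμ : ℵ₀ ≤ μ) {I : Set ι} (hι : #I ≤ μ)
    {S : ι → Set α} (hS : ∀ i ∈ I, #(S i) ≤ μ) : #(⋃ i ∈ I, S i : Set α) ≤ μ := by
  rw [Set.biUnion_eq_iUnion]
  exact mk_iUnion_small hμ hι fun i => hS i.1 i.2

theorem mk_countable_small {α : Type} {μ : Cardinal.{0}} (hμ : ℵ₀ ≤ μ) {S : Set α}
    (hS : S.Countable) : #S ≤ μ := (Cardinal.le_aleph0_iff_set_countable.2 hS).trans hμ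

theorem mk_fun_small {μ : Cardinal.{0}} (hpow : μ ^ ℵ₀ = μ) (X : Type) (hX : #X ≤ μ) :
    #(ℕ → X) ≤ μ := by
  have : #(ℕ → X) = #X ^ ℵ₀ := by simp [mk_pi]
  rw [this]
  exact (power_le_power_right hX).trans hpow.le

theorem mk_code_le {μ : Cardinal.{0}} (hμ : ℵ₀ ≤ μ) (hpow : μ ^ ℵ₀ = μ) {P : Type} {V : Set P}
    (hV : #V ≤ μ) : #{x : ℕ → ℕ → Set P | ∀ m y, (x m y).Countable ∧ x m y ⊆ V} ≤ μ := by
  classical
  let F : (ℕ → ℕ → ℕ → Option V) → (ℕ → ℕ → Set P) := fun g m y =>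
    {p | ∃ k, ∃ v, g m y k = some v ∧ v.1 = p}
  have hsub : {x : ℕ → ℕ → Set P | ∀ m y, (x m y).Countable ∧ x m y ⊆ V} ⊆ Set.range F := by
    intro x hx
    have h1 : ∀ m y, ∃ g : ℕ → Option V, ∀ p, (∃ k, ∃ v, g k = some v ∧ v.1 = p) ↔ p ∈ x m y := by
      intro m y
      have hc : ({o : Option V | o = none ∨ ∃ v : V, o = some v ∧ v.1 ∈ x m y}).Countable := by
        have h2 : ({v : V | v.1 ∈ x m y}).Countable :=
          (hx m y).1.preimage Subtype.val_injective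
        refine ((Set.countable_singleton none).union (h2.image some)).mono ?_
        rintro o (rfl | ⟨v, rfl, hv⟩)
        · exact Or.inl rfl
        · exact Or.inr ⟨v, hv, rfl⟩
      obtain ⟨g, hg⟩ := hc.exists_eq_range ⟨none, Or.inl rfl⟩
      refine ⟨g, fun p => ⟨?_, fun hp => ?_⟩⟩
      · rintro ⟨k, v, hk, rfl⟩
        have : g k ∈ {o : Option V | o = none ∨ ∃ v : V, o = some v ∧ v.1 ∈ x m y} := by
          rw [hg]; exact ⟨k, rfl⟩
        rcases this with h3 | ⟨v', h3, h4⟩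
        · rw [hk] at h3; simp at h3
        · rw [hk] at h3
          rw [Option.some.inj h3]; exact h4
      · have : some ⟨p, (hx m y).2 hp⟩ ∈
            {o : Option V | o = none ∨ ∃ v : V, o = some v ∧ v.1 ∈ x m y} :=
          Or.inr ⟨_, rfl, hp⟩
        rw [hg] at this
        obtain ⟨k, hk⟩ := this
        exact ⟨k, _, hk, rfl⟩
    choose g hg using h1
    refine ⟨g, ?_⟩
    funext m y
    ext p
    exact hg m y p
  refine (mk_le_mk_of_subset hsub).trans (mk_range_le.trans ?_)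
  refine mk_fun_small hpow _ (mk_fun_small hpow _ (mk_fun_small hpow _ ?_))
  rw [mk_option]
  exact (add_le_add hV (one_le_aleph0.trans hμ)).trans (add_eq_self hμ).le

variable {K L : Type} [LinearOrder K] [WellFoundedLT K] [LinearOrder L] [WellFoundedLT L]

theorem mk_NN_le {μ : Cardinal.{0}} (hμ : ℵ₀ ≤ μ) {i : K} {S : Set L}
    (hi : #(Set.Iio i) ≤ μ) (hS : #S ≤ μ) : #(NN i S) ≤ μ := by
  have hsub : NN i S ⊆ Set.range (fun z : Set.Iio i × Option S =>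
      ((toLex (z.1.1, (WithTop.map Subtype.val (z.2 : WithTop S) : WithTop L)) : Idx K L) :
        WithTop (Idx K L))) := by
    rintro x ⟨a, ha, y, rfl, hy⟩
    rcases hy with rfl | ⟨l, hl, rfl⟩
    · exact ⟨(⟨a, ha⟩, none), rfl⟩
    · exact ⟨(⟨a, ha⟩, some ⟨l, hl⟩), rfl⟩
  refine (mk_le_mk_of_subset hsub).trans (mk_range_le.trans ?_)
  rw [mk_prod, mk_option]
  simp only [Cardinal.lift_uzero]
  refine (mul_le_mul' hi ?_).trans (mul_eq_self hμ).le
  exact (add_le_add hS (one_le_aleph0.trans hμ)).trans (add_eq_self hμ).le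

theorem exists_supp_top (hcK : ∀ S : Set K, S.Countable → ∃ b, ∀ s ∈ S, s < b)
    {N : Set (Cond (EE K L))} (hN : N.Countable) :
    ∃ (i : K) (Y : Set L), Y.Countable ∧ ∀ p ∈ N, p.1 ∈ VK (EE K L) (NN i Y) ⊤ := by
  classical
  choose Kp hKp hKp' using fun p : Cond (EE K L) => OCount.exists_countable_support p.2
  set Kc : Set (WithTop (Idx K L)) := (⋃ p ∈ N, Kp p) \ {⊤} with hKc
  have hKcc : Kc.Countable := (hN.biUnion fun p _ => hKp p).mono Set.sdiff_subset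
  obtain ⟨i, hi⟩ := hcK (⋃ x ∈ Kc, {a | ∃ y : WithTop L, x = ((toLex (a, y) : Idx K L) :
    WithTop (Idx K L))}) (hKcc.biUnion fun x _ => Set.Subsingleton.countable (by
      rintro a ⟨y, ha⟩ a' ⟨y', ha'⟩
      rw [ha] at ha'
      have h1 := toLex.injective (WithTop.coe_injective ha')
      exact (Prod.mk.injEq _ _ _ _ ▸ h1 : a = a' ∧ y = y').1))
  refine ⟨i, ⋃ x ∈ Kc, {l | ∃ a : K, x = ((toLex (a, (l : WithTop L)) : Idx K L) :
    WithTop (Idx K L))}, ?_, ?_⟩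
  · refine hKcc.biUnion fun x _ => Set.Subsingleton.countable ?_
    rintro l ⟨a, ha⟩ l' ⟨a', ha'⟩
    rw [ha] at ha'
    have h1 := toLex.injective (WithTop.coe_injective ha')
    have h2 := (Prod.mk.injEq _ _ _ _ ▸ h1 : a = a' ∧ (l : WithTop L) = l').2
    exact WithTop.coe_injective h2
  · intro p hp
    have h2 := OCount.VK_below (ξ := ⊤) (hKp' p) p.2.2
    refine OCount.VK_mono ?_ ⊤ h2
    rintro x ⟨hx1, hx2⟩
    have hx : x ∈ Kc := ⟨Set.mem_biUnion hp hx1, fun h => by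
      rw [Set.mem_singleton_iff] at h
      rw [h] at hx2
      exact lt_irrefl (⊤ : WithTop (Idx K L)) (Set.mem_Iio.1 hx2)⟩
    induction x using WithTop.recTopCoe with
    | top => exact absurd rfl hx.2
    | coe x =>
      obtain ⟨⟨a, y⟩, rfl⟩ : ∃ z : K × WithTop L, x = toLex z := ⟨ofLex x, rfl⟩
      refine ⟨a, hi a (Set.mem_biUnion hx ⟨y, rfl⟩), y, rfl, ?_⟩
      induction y using WithTop.recTopCoe with
      | top => exact Or.inl rfl
      | coe l => exact Or.inr ⟨l, Set.mem_biUnion hx ⟨a, rfl⟩, rfl⟩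

/-- conditions over `NN i S` are below every cut of index above `i` -/
theorem below_of_NN {i δ : K} {S : Set L} {ξ : WithTop (Idx K L)}
    (hcut : ∀ a y, ((toLex (a, y) : Idx K L) : WithTop (Idx K L)) < ξ ↔ a < δ) (hi : i ≤ δ)
    {p : Cond (EE K L)} (hp : p.1 ∈ VK (EE K L) (NN i S) ⊤) : Below p.1 ξ := by
  intro η hη
  refine notMem_supp fun h => ?_
  obtain ⟨a, ha, y, rfl, _⟩ := VK_supp hp h
  exact absurd ((hcut a y).2 (ha.trans_le hi)) (not_lt.2 hη)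

/-! ### A closed point -/

theorem exists_closed {μ : Cardinal.{0}} (hμ : ℵ₁ ≤ μ)
    (hIio : ∀ i : K, #(Set.Iio i) ≤ μ) (hbd : ∀ S : Set K, #S ≤ μ → ∃ b, ∀ s ∈ S, s < b)
    (U : K → Set K) (hU : ∀ i, #(U i) ≤ μ) :
    ∃ (C : Type) (_ : LinearOrder C) (f : C → K) (δ : K),
      (∀ S : Set C, S.Countable → ∃ b, ∀ s ∈ S, s < b) ∧ (∀ ν, f ν < δ) ∧
      (∀ i < δ, ∃ ν, i < f ν) ∧ (∀ ν ν', ν < ν' → f ν < f ν') ∧
      (∀ ν ν', ν < ν' → ∀ x ∈ U (f ν), x < f ν') ∧ ∀ i < δ, ∀ x ∈ U i, x < δ := by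
  classical
  have hμ0 : ℵ₀ ≤ μ := (aleph0_lt_aleph_one.le).trans hμ
  obtain ⟨k₀, _⟩ := hbd ∅ (by simp)
  have h1 : ∀ S : Set K, ∃ b, #S ≤ μ → ∀ s ∈ S, s < b := by
    intro S
    by_cases h : #S ≤ μ
    · obtain ⟨b, hb⟩ := hbd S h
      exact ⟨b, fun _ => hb⟩
    · exact ⟨k₀, fun h' => absurd h' h⟩
  choose bnd hbnd using h1
  let W : K → K := fun i => bnd (⋃ i' ∈ Set.Iic i, U i')
  have hW : ∀ i i', i' ≤ i → ∀ x ∈ U i', x < W i := by
    intro i i' hi x hx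
    refine hbnd _ (mk_biUnion_small hμ0 ?_ fun i' _ => hU i') x (Set.mem_biUnion hi hx)
    have : Set.Iic i = Set.Iio i ∪ {i} := by
      ext x; simp [le_iff_lt_or_eq]
    rw [this]
    exact mk_union_small hμ0 (hIio i) (mk_countable_small hμ0 (Set.countable_singleton i))
  let C : Type := (ω₁ : Ordinal.{0}).ToType
  have hCc : Order.cof C = ℵ₁ := by
    show Order.cof (ω₁ : Ordinal.{0}).ToType = ℵ₁
    rw [cof_toType, cof_omega_one]
  have hCcard : #C = ℵ₁ := by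
    show #((ω₁ : Ordinal.{0}).ToType) = ℵ₁
    rw [mk_toType, card_omega]
  have hC : ∀ S : Set C, S.Countable → ∃ b, ∀ s ∈ S, s < b := by
    intro S hS
    by_contra hcon
    push Not at hcon
    have h1 : IsCofinal S := fun b => by
      obtain ⟨s, hs, hb⟩ := hcon b
      exact ⟨s, hs, hb⟩
    have h2 := Order.cof_le h1
    rw [hCc] at h2
    have h3 : #S ≤ ℵ₀ := Cardinal.le_aleph0_iff_set_countable.2 hS
    exact absurd (h2.trans h3) (not_le.2 Cardinal.aleph0_lt_aleph_one)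
  let f : C → K := WellFoundedLT.fix (motive := fun _ : C => K) fun ν F =>
    bnd {x | ∃ ν', ∃ h : ν' < ν, x = F ν' h ∨ x = W (F ν' h)}
  have hf : ∀ ν, f ν = bnd {x | ∃ ν', ∃ _ : ν' < ν, x = f ν' ∨ x = W (f ν')} := by
    intro ν
    show WellFoundedLT.fix _ ν = _
    rw [WellFoundedLT.fix_eq]
  have hsmall : ∀ ν, #({x | ∃ ν', ∃ _ : ν' < ν, x = f ν' ∨ x = W (f ν')} : Set K) ≤ μ := by
    intro ν
    have : {x | ∃ ν', ∃ _ : ν' < ν, x = f ν' ∨ x = W (f ν')} ⊆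
        Set.range f ∪ Set.range (fun ν' => W (f ν')) := by
      rintro x ⟨ν', _, rfl | rfl⟩
      · exact Or.inl ⟨ν', rfl⟩
      · exact Or.inr ⟨ν', rfl⟩
    refine (mk_le_mk_of_subset this).trans (mk_union_small hμ0 ?_ ?_)
    · exact mk_range_le.trans (hCcard.le.trans hμ)
    · exact mk_range_le.trans (hCcard.le.trans hμ)
  have hf1 : ∀ ν ν', ν < ν' → f ν < f ν' := by
    intro ν ν' h
    rw [hf ν']
    exact hbnd _ (hsmall ν') _ ⟨ν, h, Or.inl rfl⟩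
  have hf2 : ∀ ν ν', ν < ν' → W (f ν) < f ν' := by
    intro ν ν' h
    rw [hf ν']
    exact hbnd _ (hsmall ν') _ ⟨ν, h, Or.inr rfl⟩
  obtain ⟨b₀, hb₀⟩ := hbd (Set.range f) (mk_range_le.trans (hCcard.le.trans hμ))
  obtain ⟨δ, hδ, hmin⟩ := (wellFounded_lt (α := K)).has_min {b | ∀ ν, f ν < b}
    ⟨b₀, fun ν => hb₀ _ ⟨ν, rfl⟩⟩
  have hcof : ∀ i < δ, ∃ ν, i ≤ f ν := by
    intro i hi
    by_contra hcon
    push Not at hcon
    exact hmin i hcon hi
  have hnext : ∀ ν : C, ∃ ν', ν < ν' := by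
    intro ν
    obtain ⟨b, hb⟩ := hC {ν} (Set.countable_singleton ν)
    exact ⟨b, hb ν rfl⟩
  refine ⟨C, inferInstance, f, δ, hC, hδ, ?_, hf1, ?_, ?_⟩
  · intro i hi
    obtain ⟨ν, hν⟩ := hcof i hi
    obtain ⟨ν', hν'⟩ := hnext ν
    exact ⟨ν', hν.trans_lt (hf1 ν ν' hν')⟩
  · intro ν ν' h x hx
    exact (hW _ _ le_rfl x hx).trans (hf2 ν ν' h)
  · intro i hi x hx
    obtain ⟨ν, hν⟩ := hcof i hi
    obtain ⟨ν', hν'⟩ := hnext ν
    exact (hW _ _ hν x hx).trans ((hf2 ν ν' hν').trans (hδ ν'))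

end Pool.Agent.Helper803.OD.OClose
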