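import Mathlib
import Pool.Agent.Helper803.OD.ODefs
import Pool.Agent.Helper803.OD.EIter

/-!
# The iteration makes `cov(M)` small
-/

namespace Pool.Agent.Helper803.OD.OCov

open Cardinal Pool.Agent.Helper803.OD.Iter Pool.Agent.Helper803.OD.Forcing
  Pool.Agent.Helper803.OD.OIter Pool.Agent.Helper803.OD.ODefs

open Pool.Agent.Helper803.OD.EIter (addPr addPr_mem addPr_le addPr_pr_self)

set_option linter.unusedSectionVars false

universe u

variable {J : Type u} [LinearOrder J] [WellFoundedLT J] {E : Set (WithTop J)}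

/-- the generic real at the coordinate `ξ` -/
def Gr (E : Set (WithTop J)) (ξ : J) (n m : ℕ) : Set (Cond E) :=
  {p | n < (p.1.st (ξ : WithTop J)).length ∧ (p.1.st (ξ : WithTop J)).getD n 0 = m}

theorem down_Gr (ξ : J) (n m : ℕ) : Down (Gr E ξ n m) := by
  rintro p ⟨h1, h2⟩ q hq
  obtain ⟨t, ht⟩ := (hq (ξ : WithTop J)).1
  refine ⟨?_, ?_⟩
  · rw [← ht, List.length_append]; omega
  · rw [← ht, List.getD_append _ _ _ _ h1]; exact h2

theorem isFun_Gr (ξ : J) (p : Cond E) : p ∈ IsFun (Gr E ξ) := by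
  refine ⟨fun n => mem_fex.2 fun q _ => ?_, fun n m m' => mem_fimp.2 fun q _ h => ?_⟩
  · obtain ⟨r, hr, hlen, _⟩ := push_long q ξ n
    exact ⟨r, hr, _, meets_of_mem ⟨hlen, rfl⟩⟩
  · obtain ⟨r, hr, h1⟩ := exists_of_meets (down_Gr ξ n m) h.1
    obtain ⟨r', hr', h2⟩ := exists_of_meets (down_Gr ξ n m') (down_meets _ _ h.2 r hr)
    exact ⟨q, le_rfl, ((down_Gr ξ n m r h1 r' hr').2.symm.trans h2.2 : m = m')⟩

/-- the generic real added at a late coordinate in `E` is eventually different from a given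
real -/
theorem eventually_different (hcof : ∀ S : Set J, S.Countable → ∃ b, ∀ s ∈ S, s < b)
    (x : ℕ → ℕ → Set (Cond E)) :
    ∃ b : J, ∀ ξ : J, b ≤ ξ → (ξ : WithTop J) ∈ E → ∀ p ∈ IsFun x, ∃ p' ≤ p,
      ∀ n, (p.1.st (ξ : WithTop J)).length ≤ n →
      ∀ m, ∀ r ≤ p', r ∈ Gr E ξ n m → r ∉ meets (x n m) := by
  classical
  have hD : ∀ n, ∃ A ⊆ {q : Cond E | (∃ m, ∀ m', m' ≠ m → q ∈ fnot (meets (x n m'))) ∨
      q ∈ fnot (IsFun x)}, A.Countable ∧ (∀ p, ∃ a ∈ A, Compat a p) ∧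
      ∀ a ∈ A, ∀ b ∈ A, Compat a b → a = b := by
    intro n
    apply exists_antichain
    intro q
    by_cases hq : q ∈ fnot (IsFun x)
    · exact ⟨q, le_rfl, Or.inr hq⟩
    · simp only [fnot, Set.mem_ofPred_eq, not_forall, not_not] at hq
      obtain ⟨q', hq', hfun⟩ := hq
      obtain ⟨q'', hq'', m, hm⟩ := IsFun.total hfun n
      refine ⟨q'', hq''.trans hq', Or.inl ⟨m, fun m' hne r hr hr' => hne ?_⟩⟩
      exact IsFun.unique (down_IsFun x _ hfun r (hr.trans hq'')) hr' (down_meets _ _ hm r hr)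
  choose A hAD hAc hApre hAanti using hD
  obtain ⟨b, hb⟩ := exists_below hcof (Set.countable_iUnion hAc)
  refine ⟨b, fun ξ hξ hξE p hp => ?_⟩
  have hbelow : ∀ n, ∀ a ∈ A n, Below a.1 (ξ : WithTop J) := fun n a ha =>
    (hb a (Set.mem_iUnion.2 ⟨n, ha⟩)).mono (WithTop.coe_le_coe.2 hξ)
  let B : ℕ → ℕ → Set (Cond E) := fun n m =>
    {a | a ∈ A n ∧ (a ∈ fnot (meets (x n m)) ∨ a ∈ fnot (IsFun x))}
  let R : Pr (WithTop J) := fun n m => ⋃ q ∈ Subtype.val '' (B n m), bs q (ξ : WithTop J)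
  have hR : R ∈ ER E (ξ : WithTop J) := by
    rw [mem_ER]
    refine ⟨hξE, fun n m => ⟨Subtype.val '' (B n m), ?_, ?_, rfl⟩, fun n q hq => ?_⟩
    · rintro _ ⟨a, ha, rfl⟩
      exact ⟨a.2.1, hbelow n a ha.1⟩
    · exact ((hAc n).mono fun a ha => ha.1).image _
    · obtain ⟨a, ha, s, hsa, hsq⟩ := hApre n ⟨q, hq.1, hq.2.mono le_top⟩
      have h1 : resP s ξ ≤ a := resP_le hsa (hbelow n a ha)
      have h2 : (resP s ξ).1 ≤ q := resP_le (q := ⟨q, hq.1, hq.2.mono le_top⟩) hsq hq.2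
      refine ⟨(resP s ξ).1, resP_mem s ξ, h2, ?_⟩
      have h3 : bs (resP s (ξ : WithTop J)).1 (ξ : WithTop J) ⊆ bs a.1 (ξ : WithTop J) :=
        bs_le h1 _
      rcases hAD n ha with ⟨m₀, hm₀⟩ | hnf
      · refine ⟨m₀, fun m hm => h3.trans ?_⟩
        exact Set.subset_biUnion_of_mem (u := fun q => bs q (ξ : WithTop J))
          ⟨a, ⟨ha, Or.inl (hm₀ m hm)⟩, rfl⟩
      · refine ⟨0, fun m _ => h3.trans ?_⟩
        exact Set.subset_biUnion_of_mem (u := fun q => bs q (ξ : WithTop J))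
          ⟨a, ⟨ha, Or.inr hnf⟩, rfl⟩
  have hξtop : (ξ : WithTop J) < ⊤ := WithTop.coe_lt_top ξ
  let p' : Cond E := ⟨addPr p.1 ξ R, addPr_mem p.2 hξtop hR⟩
  have hp'p : p' ≤ p := addPr_le p.1 ξ R
  refine ⟨p', hp'p, fun n hn m r hr hre hrx => ?_⟩
  have h1 : bs r.1 (ξ : WithTop J) ⊆ R n ((r.1.st (ξ : WithTop J)).getD n 0) :=
    (hr (ξ : WithTop J)).2.2 R (addPr_pr_self p.1 ξ R) n hn hre.1
  rw [hre.2] at h1
  obtain ⟨w, hw⟩ := bs_nonempty (good E) r.2
  have h2 := h1 (hw ξ)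
  simp only [R, Set.mem_iUnion] at h2
  obtain ⟨_, ⟨a, ha, rfl⟩, hwa⟩ := h2
  obtain ⟨q, hq, hq1, hq2⟩ := compat_of_point (good E) (resP_mem r ξ)
    ⟨a.2.1, hbelow n a ha.1⟩ (by
      show w ∈ bs (res r.1 ξ) ξ
      rw [bs_res le_rfl]; exact hw ξ) hwa
  obtain ⟨s, hs1, hs2, _⟩ := compat_res (p := r) (hbelow n a ha.1)
    ⟨⟨q, hq.1, hq.2.mono le_top⟩, hq2, hq1⟩
  rcases ha.2 with h3 | h3
  · exact h3 s hs1 (down_meets _ _ hrx s hs2)
  · exact h3 s hs1 (down_IsFun x _ hp s (hs2.trans (hr.trans hp'p)))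

/-- the set of sequences differing from the generic real at all places from `k` on -/
def Td (E : Set (WithTop J)) (ξ : J) (k : ℕ) (s : List ℕ) : Set (Cond E) :=
  {p | ∀ n, k ≤ n → n < s.length → p ∈ fnot (Gr E ξ n (s.getD n 0))}

theorem down_Td (ξ : J) (k : ℕ) (s : List ℕ) : Down (Td E ξ k s) :=
  fun _ hp _ hq n h1 h2 => down_fnot _ _ (hp n h1 h2) _ hq

theorem isMeagerCode_Td (ξ : J) (p : Cond E) : p ∈ IsMeagerCode (Td E ξ) := by
  refine fun k s => mem_fex.2 fun q _ => ?_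
  set N := max s.length k with hN
  obtain ⟨r, hr, hlen, _⟩ := push_long q ξ N
  set e := (r.1.st (ξ : WithTop J)).getD N 0 with he
  refine ⟨r, hr, s ++ List.replicate (N - s.length) 0 ++ [e], ?_, ?_⟩
  · rw [List.append_assoc]; exact List.prefix_append _ _
  · intro r' hr' hmeet
    obtain ⟨q', hq', hT⟩ := exists_of_meets (down_Td ξ k _) hmeet
    have hlen' : (s ++ List.replicate (N - s.length) 0).length = N := by
      simp; omega
    have h1 := hT N (le_max_right _ _) (by rw [List.length_append, hlen']; simp) q' le_rfl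
    rw [List.getD_append_right _ _ _ _ (by rw [hlen']), hlen'] at h1
    apply h1
    have h2 : r ∈ Gr E ξ N e := ⟨hlen, rfl⟩
    simpa using down_Gr ξ N e r h2 q' (hq'.trans hr')

theorem covLe (hcof : ∀ S : Set J, S.Countable → ∃ b, ∀ s ∈ S, s < b) {Y : Type u} (g : Y → J)
    (hgE : ∀ y, (g y : WithTop J) ∈ E) (hg : ∀ b, ∃ y, b ≤ g y) (p : Cond E) :
    p ∈ CovLe (Cond E) Y := by
  refine mem_fex_of_mem (fun y => Td E (g y)) ?_ ?_
  · exact down_fand (down_fall fun _ => down_IsMeagerCode _) (down_fall fun _ => down_fimp _ _)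
  · refine ⟨fun y => isMeagerCode_Td (g y) p, fun x => mem_fimp.2 fun q _ hq => ?_⟩
    obtain ⟨b, hb⟩ := eventually_different hcof x
    obtain ⟨y, hy⟩ := hg b
    obtain ⟨q', hq', h⟩ := hb (g y) hy (hgE y) q hq
    refine ⟨q', hq', mem_fex_of_mem y (down_InMeager _ _) ?_⟩
    refine mem_fex_of_mem (q.1.st (g y : WithTop J)).length
      (down_fall fun _ => down_fimp _ _) fun s => mem_fimp.2 fun r hr hinit => ⟨r, le_rfl, ?_⟩
    refine meets_of_mem fun n hn hn' t ht hE => ?_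
    exact h n hn (s.getD n 0) t (ht.trans hr) hE (down_meets _ _ (hinit n hn') t ht)

end Pool.Agent.Helper803.OD.OCov
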